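import Pool.Agent.V8H59.RF.Ctr

set_option autoImplicit false

/-!
The potential argument: products of gates, damped products, hot and cold parts of the rows.
-/

open Matrix

namespace Pool.Agent.V8H59.RF

noncomputable section

variable {ι : Type*} [Fintype ι] [DecidableEq ι]

/-- The partial products. -/
def Wm (R : ℕ → Matrix ι ι ℂ) : ℕ → Matrix ι ι ℂ
  | 0 => 1
  | t + 1 => R t * Wm R t

/-- The damped partial products. -/
def Sm (δ : ℝ) (ii jj : ℕ → ι) (R : ℕ → Matrix ι ι ℂ) : ℕ → Matrix ι ι ℂ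
  | 0 => 1
  | t + 1 => Ld δ (ii t) (jj t) (R t) * Sm δ ii jj R t

lemma Wm_un {m : ℕ} {ii jj : ℕ → ι} {R : ℕ → Matrix ι ι ℂ} (hR : ∀ t < m, Gt (ii t) (jj t) (R t))
    (t : ℕ) (ht : t ≤ m) : (Wm R t)ᴴ * Wm R t = 1 ∧ Wm R t * (Wm R t)ᴴ = 1 := by
  induction t with
  | zero => simp [Wm]
  | succ t ih =>
    obtain ⟨h1, h2⟩ := ih (by omega)
    have h := hR t (by omega)
    constructor
    · show (R t * Wm R t)ᴴ * (R t * Wm R t) = 1
      rw [conjTranspose_mul, Matrix.mul_assoc, ← Matrix.mul_assoc _ (R t), h.un, Matrix.one_mul, h1]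
    · show (R t * Wm R t) * (R t * Wm R t)ᴴ = 1
      rw [conjTranspose_mul, Matrix.mul_assoc, ← Matrix.mul_assoc (Wm R t), h2, Matrix.one_mul,
        h.un']

lemma Wm_con {m : ℕ} {ii jj : ℕ → ι} {R : ℕ → Matrix ι ι ℂ} (hR : ∀ t < m, Gt (ii t) (jj t) (R t))
    (t : ℕ) (ht : t ≤ m) : Con (Wm R t) :=
  Con.unitary (Wm_un hR t ht).1 (Wm_un hR t ht).2

lemma Sm_con {m : ℕ} {ii jj : ℕ → ι} {R : ℕ → Matrix ι ι ℂ} (hR : ∀ t < m, Gt (ii t) (jj t) (R t))
    {δ : ℝ} (h0 : 0 ≤ δ) (h1 : δ ≤ 1) (t : ℕ) (ht : t ≤ m) : Con (Sm δ ii jj R t) := by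
  induction t with
  | zero => exact Con.one
  | succ t ih => exact (Con.Ld (hR t (by omega)) h0 h1).mul (ih (by omega))

/-- `|tr (Π N)| ≤ 2` for contractions. -/
lemma tr_Pr_le {i j : ι} (hij : i ≠ j) {N : Matrix ι ι ℂ} (hN : Con N) :
    |(trace (Pr i j * N)).re| ≤ 2 := by
  have h1 : trace (Pr i j * N) = N i i + N j j := by
    unfold trace
    rw [← Finset.sum_pair (f := fun k => N k k) hij]
    symm
    have h2 : ∀ k ∈ ({i, j} : Finset ι), N k k = (Pr i j * N).diag k := by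
      intro k hk
      rw [Finset.mem_insert, Finset.mem_singleton] at hk
      rw [Matrix.diag_apply, Pr_mul, if_pos hk]
    rw [Finset.sum_congr rfl h2]
    refine Finset.sum_subset (Finset.subset_univ _) ?_
    intro k _ hk
    rw [Finset.mem_insert, Finset.mem_singleton] at hk
    rw [Matrix.diag_apply, Pr_mul, if_neg hk]
  rw [h1]
  refine (Complex.abs_re_le_norm _).trans ((norm_add_le _ _).trans ?_)
  have := hN.diag i
  have := hN.diag j
  linarith

/-- The trace of the damped product. -/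
lemma tr_Sm {m : ℕ} {ii jj : ℕ → ι} {R : ℕ → Matrix ι ι ℂ} (hR : ∀ t < m, Gt (ii t) (jj t) (R t))
    {δ : ℝ} (h0 : 0 ≤ δ) (h1 : δ ≤ 1) {Q : Matrix ι ι ℂ} (hQ : Con Q) :
    (trace (Wm R m * Q)).re - 2 * δ * m ≤ (trace (Sm δ ii jj R m * Q)).re := by
  have key : ∀ t ≤ m, (trace (Wm R m * Q)).re - 2 * δ * t ≤
      (trace (Wm R m * (Wm R t)ᴴ * Sm δ ii jj R t * Q)).re := by
    intro t
    induction t with
    | zero => intro _; simp [Wm, Sm]
    | succ t ih =>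
      intro ht
      have ih' := ih (by omega)
      have h := hR t (by omega)
      set M := Wm R m * (Wm R (t + 1))ᴴ with hM
      set N := R t * Sm δ ii jj R t * Q with hN
      have e1 : M * R t = Wm R m * (Wm R t)ᴴ := by
        rw [hM]
        show Wm R m * (R t * Wm R t)ᴴ * R t = _
        rw [conjTranspose_mul, Matrix.mul_assoc, Matrix.mul_assoc, h.un, Matrix.mul_one]
      have e2 : M * Sm δ ii jj R (t + 1) * Q = Wm R m * (Wm R t)ᴴ * Sm δ ii jj R t * Q -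
          (δ : ℂ) • (M * (Pr (ii t) (jj t) * N)) := by
        show M * (Ld δ (ii t) (jj t) (R t) * Sm δ ii jj R t) * Q = _
        rw [← e1, hN]
        unfold Ld
        simp only [sub_mul, mul_sub, smul_mul_assoc, mul_smul_comm, Matrix.mul_assoc]
      have e3 : trace (M * (Pr (ii t) (jj t) * N)) = trace (Pr (ii t) (jj t) * (N * M)) := by
        rw [trace_mul_comm, Matrix.mul_assoc]
      have hMc : Con M := by
        have hW := Wm_un hR (t + 1) ht
        refine (Wm_con hR m le_rfl).mul (Con.unitary ?_ ?_)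
        · rw [conjTranspose_conjTranspose]; exact hW.2
        · rw [conjTranspose_conjTranspose]; exact hW.1
      have hNc : Con N := (h.con.mul (Sm_con hR h0 h1 t (by omega))).mul hQ
      have h4 := tr_Pr_le h.ne (hNc.mul hMc)
      rw [e2, trace_sub, trace_smul, e3, Complex.sub_re, smul_eq_mul, Complex.re_ofReal_mul]
      have h5 := (abs_le.1 h4).2
      push_cast
      nlinarith
  have h := key m le_rfl
  rw [(Wm_un hR m le_rfl).2, Matrix.one_mul] at h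
  exact h

/-! ### Hot and cold parts -/

omit [DecidableEq ι] in
/-- The cold part is small. -/
lemma cold {b : ℝ} (hb : 0 < b) {s : ι → ℂ} (hs : nr s ≤ 1) :
    ∑ l, ‖s l - tz b (s l)‖ ≤ Real.exp (b / 2) := by
  have h1 : ∀ l ∈ (Finset.univ : Finset ι), ‖s l - tz b (s l)‖ ≤ Real.exp (b / 2) * ‖s l‖ ^ 2 := by
    intro l _
    by_cases h : ‖s l‖ ^ 2 ≤ Real.exp (-b)
    · rw [tz_small hb h, sub_self, norm_zero]
      positivity
    · push Not at h
      have h2 : ‖s l - tz b (s l)‖ ≤ ‖s l‖ := by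
        unfold tz
        have e : s l - ((th b (‖s l‖ ^ 2) : ℝ) : ℂ) * s l =
            ((1 - th b (‖s l‖ ^ 2) : ℝ) : ℂ) * s l := by push_cast; ring
        rw [e, norm_mul, Complex.norm_real, Real.norm_of_nonneg (by
          linarith [th_le_one b (‖s l‖ ^ 2)])]
        exact mul_le_of_le_one_left (norm_nonneg _) (by linarith [th_nonneg b (‖s l‖ ^ 2)])
      have h3 : Real.exp (-(b / 2)) ≤ ‖s l‖ := by
        refine le_of_sq_le_sq ?_ (norm_nonneg _)
        rw [← Real.exp_nat_mul]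
        refine le_trans (le_of_eq ?_) h.le
        congr 1
        push_cast
        ring
      have h4 : 1 ≤ Real.exp (b / 2) * ‖s l‖ := by
        calc (1 : ℝ) = Real.exp (b / 2) * Real.exp (-(b / 2)) := by
              rw [← Real.exp_add]; simp
          _ ≤ _ := by gcongr
      calc ‖s l - tz b (s l)‖ ≤ ‖s l‖ := h2
        _ = 1 * ‖s l‖ := (one_mul _).symm
        _ ≤ Real.exp (b / 2) * ‖s l‖ * ‖s l‖ := by gcongr
        _ = _ := by ring
  refine (Finset.sum_le_sum h1).trans ?_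
  rw [← Finset.mul_sum]
  have : ∑ l, ‖s l‖ ^ 2 = nr s := rfl
  rw [this]
  exact mul_le_of_le_one_right (Real.exp_pos _).le hs

/-- The `ℓ^1` norm of the rows of the truncation error. -/
lemma err_l1 {i j : ι} {M : Matrix ι ι ℂ} (h : Tc i j M) {b : ℝ} (hb : 0 < b)
    {Y : Matrix ι ι ℂ} (hi : nr (Y i) ≤ 1) (hj : nr (Y j) ≤ 1) {a : ι} (ha : a = i ∨ a = j) :
    ∑ l, ‖(Tz b (M * Y) - M * Tz b Y) a l‖ ≤ 24 / b * Real.exp (b / 2) := by
  have h1 : ∀ l ∈ (Finset.univ : Finset ι), ‖(Tz b (M * Y) - M * Tz b Y) a l‖ ≤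
      12 / b * Real.exp (b / 2) * (‖Y i l‖ ^ 2 + ‖Y j l‖ ^ 2) := by
    intro l _
    by_cases hl : ‖Y i l‖ ^ 2 + ‖Y j l‖ ^ 2 ≤ Real.exp (-b)
    · rw [h.err_zero hb Y ha l hl, norm_zero]
      positivity
    · push Not at hl
      have h2 := h.err_le hb Y ha l
      set ρ := √(‖Y i l‖ ^ 2 + ‖Y j l‖ ^ 2) with hρ
      have h3 : ρ ^ 2 = ‖Y i l‖ ^ 2 + ‖Y j l‖ ^ 2 := Real.sq_sqrt (by positivity)
      have hρ0 : 0 ≤ ρ := Real.sqrt_nonneg _
      rw [← h3] at hl ⊢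
      have h4 : Real.exp (-(b / 2)) ≤ ρ := by
        refine le_of_sq_le_sq ?_ hρ0
        rw [← Real.exp_nat_mul]
        refine le_trans (le_of_eq ?_) hl.le
        congr 1
        push_cast
        ring
      have h5 : 1 ≤ Real.exp (b / 2) * ρ := by
        calc (1 : ℝ) = Real.exp (b / 2) * Real.exp (-(b / 2)) := by
              rw [← Real.exp_add]; simp
          _ ≤ _ := by gcongr
      calc _ ≤ 12 / b * ρ := h2
        _ = 12 / b * (1 * ρ) := by ring
        _ ≤ 12 / b * (Real.exp (b / 2) * ρ * ρ) := by gcongr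
        _ = _ := by ring
  refine (Finset.sum_le_sum h1).trans ?_
  rw [← Finset.mul_sum, Finset.sum_add_distrib]
  have e1 : ∑ l, ‖Y i l‖ ^ 2 = nr (Y i) := rfl
  have e2 : ∑ l, ‖Y j l‖ ^ 2 = nr (Y j) := rfl
  rw [e1, e2]
  calc 12 / b * Real.exp (b / 2) * (nr (Y i) + nr (Y j)) ≤ 12 / b * Real.exp (b / 2) * (1 + 1) := by
        gcongr
    _ = _ := by ring

/-- One row of the increment of the potential. -/
lemma row_inc {i j : ι} {M : Matrix ι ι ℂ} (h : Tc i j M) {b : ℝ} (hb : 0 < b)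
    {Y G : Matrix ι ι ℂ} (hi : nr (Y i) ≤ 1) (hj : nr (Y j) ≤ 1) {a : ι} (ha : a = i ∨ a = j)
    (hG : ∀ k l, ‖G k l‖ ≤ Real.exp (-(3 * b / 2))) (hGc : Con G) {s : ι → ℂ} (hs : nr s ≤ 1) :
    ∑ l, ‖(s ᵥ* G) l‖ * ‖(Tz b (M * Y) - M * Tz b Y) a l‖ ≤
      24 / b * Real.exp (-(b / 2)) + 18 / b * √(nr fun l => tz b (s l)) := by
  set E := (Tz b (M * Y) - M * Tz b Y) a with hE
  set hh : ι → ℂ := fun l => tz b (s l) with hhd
  set cc : ι → ℂ := fun l => s l - tz b (s l) with hcd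
  have e : s ᵥ* G = cc ᵥ* G + hh ᵥ* G := by
    rw [← add_vecMul]
    congr 1
    funext l
    rw [Pi.add_apply, hcd, hhd]
    ring
  have h1 : ∀ l, ‖(cc ᵥ* G) l‖ ≤ Real.exp (-b) := by
    intro l
    unfold vecMul dotProduct
    refine (norm_sum_le _ _).trans ?_
    calc ∑ x, ‖cc x * G x l‖ ≤ ∑ x, ‖cc x‖ * Real.exp (-(3 * b / 2)) := by
          refine Finset.sum_le_sum fun x _ => ?_
          rw [norm_mul]
          exact mul_le_mul_of_nonneg_left (hG x l) (norm_nonneg _)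
      _ = (∑ x, ‖cc x‖) * Real.exp (-(3 * b / 2)) := by rw [Finset.sum_mul]
      _ ≤ Real.exp (b / 2) * Real.exp (-(3 * b / 2)) :=
          mul_le_mul_of_nonneg_right (cold hb hs) (Real.exp_pos _).le
      _ = Real.exp (-b) := by rw [← Real.exp_add]; congr 1; ring
  have h2 : ∑ l, ‖(cc ᵥ* G) l‖ * ‖E l‖ ≤ 24 / b * Real.exp (-(b / 2)) := by
    calc ∑ l, ‖(cc ᵥ* G) l‖ * ‖E l‖ ≤ ∑ l, Real.exp (-b) * ‖E l‖ :=
          Finset.sum_le_sum fun l _ => mul_le_mul_of_nonneg_right (h1 l) (norm_nonneg _)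
      _ = Real.exp (-b) * ∑ l, ‖E l‖ := by rw [Finset.mul_sum]
      _ ≤ Real.exp (-b) * (24 / b * Real.exp (b / 2)) :=
          mul_le_mul_of_nonneg_left (err_l1 h hb hi hj ha) (Real.exp_pos _).le
      _ = 24 / b * (Real.exp (-b) * Real.exp (b / 2)) := by ring
      _ = 24 / b * Real.exp (-(b / 2)) := by rw [← Real.exp_add]; congr 2; ring
  have h3 : ∑ l, ‖(hh ᵥ* G) l‖ * ‖E l‖ ≤ 18 / b * √(nr hh) := by
    refine (cs _ _).trans ?_
    have g1 : √(nr (hh ᵥ* G)) ≤ √(nr hh) := Real.sqrt_le_sqrt (hGc.2 hh)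
    have g2 : √(nr E) ≤ 18 / b := by
      refine Real.sqrt_le_iff.2 ⟨by positivity, ?_⟩
      refine (h.err_nr hb Y ha).trans ?_
      have : (12 / b) ^ 2 * (nr (Y i) + nr (Y j)) ≤ (12 / b) ^ 2 * (1 + 1) := by gcongr
      refine this.trans ?_
      rw [div_pow, div_pow, div_mul_eq_mul_div]
      apply div_le_div_of_nonneg_right _ (by positivity)
      norm_num
    calc √(nr (hh ᵥ* G)) * √(nr E) ≤ √(nr hh) * (18 / b) := by gcongr
      _ = _ := by ring
  calc ∑ l, ‖(s ᵥ* G) l‖ * ‖E l‖ ≤ ∑ l, (‖(cc ᵥ* G) l‖ * ‖E l‖ + ‖(hh ᵥ* G) l‖ * ‖E l‖) := by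
        refine Finset.sum_le_sum fun l _ => ?_
        rw [← add_mul, e, Pi.add_apply]
        exact mul_le_mul_of_nonneg_right (norm_add_le _ _) (norm_nonneg _)
    _ = _ := Finset.sum_add_distrib
    _ ≤ _ := add_le_add h2 h3

omit [DecidableEq ι] in
lemma nr_Tz (b : ℝ) (Y : Matrix ι ι ℂ) (a : ι) : nr (Tz b Y a) ≤ nr (Y a) := by
  unfold nr
  refine Finset.sum_le_sum fun l _ => ?_
  rw [Tz_apply]
  have := norm_tz_le b (Y a l)
  gcongr

/-- The increment of the potential. -/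
lemma inc {i j : ι} {R S W Q G : Matrix ι ι ℂ} (h : Gt i j R) {b δ : ℝ} (hb : 0 < b)
    (h0 : 0 ≤ δ) (h1 : δ ≤ 1 / 2) (hS : Con S) (hW : Con W) (hQ : Con Q) (hGc : Con G)
    (hG : ∀ k l, ‖G k l‖ ≤ Real.exp (-(3 * b / 2))) :
    ip (Ld δ i j R * S * Q * G) (Tz b (R * W)) - ip (S * Q * G) (Tz b W) ≤
      2 * δ + 96 / b * Real.exp (-(b / 2)) +
        36 / b * (√(nr (Tz b (Ld δ i j R * S * Q) i)) + √(nr (Tz b (Ld δ i j R * S * Q) j))) := by
  set Y := R * (S * Q * G) with hY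
  set Z := Tz b (R * W) with hZ
  set E := Tz b (R * W) - R * Tz b W with hE
  have hYc : Con Y := h.con.mul ((hS.mul hQ).mul hGc)
  have e1 : Ld δ i j R * S * Q * G = Y - (δ : ℂ) • (Pr i j * Y) := by
    rw [hY]
    unfold Ld
    simp only [sub_mul, smul_mul_assoc, Matrix.mul_assoc]
  have e2 : ip (Y - (δ : ℂ) • (Pr i j * Y)) Z = ip Y Z - δ * ip Y (Pr i j * Z) := by
    rw [ip_comm, ip_sub, ip_comm Z Y]
    congr 1
    have : ip Z ((δ : ℂ) • (Pr i j * Y)) = δ * ip Z (Pr i j * Y) := by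
      unfold ip
      rw [mul_smul_comm, trace_smul, smul_eq_mul, Complex.re_ofReal_mul]
    rw [this, ip_comm Z, ip_mul_left, Pr_herm]
  have e3 : ip (S * Q * G) (Tz b W) = ip Y (R * Tz b W) := by
    rw [hY, ip_mul_left R (S * Q * G), ← Matrix.mul_assoc, h.un, Matrix.one_mul]
  have e4 : ip Y Z - ip Y (R * Tz b W) = ip Y E := by rw [hE, ip_sub]
  -- the damping term
  have f1 : |ip Y (Pr i j * Z)| ≤ 2 := by
    rw [ip_On h.ne (Pr_On i j Z)]
    have hrow : ∀ a, a = i ∨ a = j → |(star (Y a) ⬝ᵥ (Pr i j * Z) a).re| ≤ 1 := by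
      intro a ha
      refine (Complex.abs_re_le_norm _).trans ((cs_dot _ _).trans ?_)
      have g1 : √(nr (star (Y a))) ≤ 1 := by
        rw [nr_star]
        exact Real.sqrt_le_one.2 (hYc.row a)
      have g2 : √(nr ((Pr i j * Z) a)) ≤ 1 := by
        refine Real.sqrt_le_one.2 ?_
        have : (Pr i j * Z) a = Z a := by
          funext l
          rw [Pr_mul, if_pos ha]
        rw [this]
        exact (nr_Tz b _ a).trans ((h.con.mul hW).row a)
      calc _ ≤ (1 : ℝ) * 1 := mul_le_mul g1 g2 (Real.sqrt_nonneg _) zero_le_one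
        _ = 1 := one_mul 1
    have g1 := hrow i (Or.inl rfl)
    have g2 := hrow j (Or.inr rfl)
    calc _ ≤ |(star (Y i) ⬝ᵥ (Pr i j * Z) i).re| + |(star (Y j) ⬝ᵥ (Pr i j * Z) j).re| :=
          abs_add_le _ _
      _ ≤ 2 := by linarith
  -- the rows
  have hEOn : On i j E := h.gl.err_On b W
  have f2 : ∀ a, a = i ∨ a = j → (star (Y a) ⬝ᵥ E a).re ≤
      48 / b * Real.exp (-(b / 2)) + 36 / b * √(nr (Tz b (Ld δ i j R * S * Q) a)) := by
    intro a ha
    set s := (Ld δ i j R * S * Q) a with hs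
    have hsc : nr s ≤ 1 := (((Con.Ld h h0 (by linarith)).mul hS).mul hQ).row a
    have hsY : s ᵥ* G = ((1 - δ : ℝ) : ℂ) • Y a := by
      rw [hs, ← mul_apply_eq_vecMul, e1]
      funext l
      rw [Matrix.sub_apply, Matrix.smul_apply, Pr_mul, if_pos ha, Pi.smul_apply, smul_eq_mul,
        smul_eq_mul]
      push_cast
      ring
    have g1 := row_inc h.gl hb (Y := W) (hW.row i) (hW.row j) ha hG hGc hsc
    have g2 : ∑ l, ‖(s ᵥ* G) l‖ * ‖E a l‖ = (1 - δ) * ∑ l, ‖Y a l‖ * ‖E a l‖ := by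
      rw [Finset.mul_sum]
      refine Finset.sum_congr rfl fun l _ => ?_
      rw [hsY, Pi.smul_apply, smul_eq_mul, norm_mul, Complex.norm_real,
        Real.norm_of_nonneg (by linarith)]
      ring
    rw [g2] at g1
    have g3 : (star (Y a) ⬝ᵥ E a).re ≤ ∑ l, ‖Y a l‖ * ‖E a l‖ := by
      refine (Complex.re_le_norm _).trans ?_
      unfold dotProduct
      refine (norm_sum_le _ _).trans (le_of_eq ?_)
      refine Finset.sum_congr rfl fun l _ => ?_
      rw [norm_mul, Pi.star_apply, norm_star]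
    have g4 : 0 ≤ ∑ l, ‖Y a l‖ * ‖E a l‖ := Finset.sum_nonneg fun _ _ => by positivity
    have g5 : ∑ l, ‖Y a l‖ * ‖E a l‖ ≤ 2 * ((1 - δ) * ∑ l, ‖Y a l‖ * ‖E a l‖) := by nlinarith
    have g6 : (nr fun l => tz b (s l)) = nr (Tz b (Ld δ i j R * S * Q) a) := rfl
    rw [g6] at g1
    calc _ ≤ 2 * ((1 - δ) * ∑ l, ‖Y a l‖ * ‖E a l‖) := g3.trans g5
      _ ≤ 2 * (24 / b * Real.exp (-(b / 2)) +
          18 / b * √(nr (Tz b (Ld δ i j R * S * Q) a))) := by linarith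
      _ = _ := by ring
  have f3 := f2 i (Or.inl rfl)
  have f4 := f2 j (Or.inr rfl)
  have f5 : ip Y E = (star (Y i) ⬝ᵥ E i).re + (star (Y j) ⬝ᵥ E j).re := ip_On h.ne hEOn
  have f6 := abs_le.1 f1
  rw [e1, e2, e3]
  have f7 : -(δ * ip Y (Pr i j * Z)) ≤ 2 * δ := by nlinarith [f6.1]
  have f8 : 96 / b * Real.exp (-(b / 2)) = 2 * (48 / b * Real.exp (-(b / 2))) := by ring
  rw [f8]
  linarith

end

end Pool.Agent.V8H59.RF
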