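import Pool.Agent.V8H59.RF.Theta

set_option autoImplicit false

/-!
Real inner product of complex matrices, rows, contractions, two-coordinate matrices.
-/

open Matrix

namespace Pool.Agent.V8H59.RF

noncomputable section

variable {ι : Type*} [Fintype ι] [DecidableEq ι]

/-- The squared norm of a vector. -/
def nr (x : ι → ℂ) : ℝ := ∑ k, ‖x k‖ ^ 2

omit [DecidableEq ι] in
lemma nr_nonneg (x : ι → ℂ) : 0 ≤ nr x := Finset.sum_nonneg fun _ _ => by positivity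

omit [DecidableEq ι] in
lemma le_nr (x : ι → ℂ) (k : ι) : ‖x k‖ ^ 2 ≤ nr x :=
  Finset.single_le_sum (f := fun k => ‖x k‖ ^ 2) (fun _ _ => by positivity) (Finset.mem_univ k)

omit [DecidableEq ι] in
lemma nr_eq (x : ι → ℂ) : ((nr x : ℝ) : ℂ) = star x ⬝ᵥ x := by
  unfold nr dotProduct
  push_cast
  refine Finset.sum_congr rfl fun k _ => ?_
  rw [Pi.star_apply, Complex.star_def, Complex.conj_mul']

omit [DecidableEq ι] in
lemma nr_star (x : ι → ℂ) : nr (star x) = nr x := by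
  unfold nr
  refine Finset.sum_congr rfl fun k _ => ?_
  rw [Pi.star_apply, norm_star]

omit [DecidableEq ι] in
/-- Cauchy-Schwarz. -/
lemma cs (x y : ι → ℂ) : ∑ k, ‖x k‖ * ‖y k‖ ≤ √(nr x) * √(nr y) := by
  rw [← Real.sqrt_mul (nr_nonneg x)]
  exact Real.le_sqrt_of_sq_le (Finset.sum_mul_sq_le_sq_mul_sq _ _ _)

omit [DecidableEq ι] in
lemma cs_dot (x y : ι → ℂ) : ‖x ⬝ᵥ y‖ ≤ √(nr x) * √(nr y) := by
  refine le_trans ?_ (cs x y)
  unfold dotProduct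
  refine (norm_sum_le _ _).trans (le_of_eq ?_)
  exact Finset.sum_congr rfl fun k _ => norm_mul _ _

/-- The real inner product of matrices. -/
def ip (Y Z : Matrix ι ι ℂ) : ℝ := (trace (Yᴴ * Z)).re

omit [DecidableEq ι] in
lemma ip_eq (Y Z : Matrix ι ι ℂ) : ip Y Z = ∑ k, (star (Y k) ⬝ᵥ Z k).re := by
  unfold ip trace
  simp only [diag_apply, mul_apply, conjTranspose_apply, dotProduct, Pi.star_apply]
  rw [Finset.sum_comm, Complex.re_sum]

omit [DecidableEq ι] in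
lemma ip_add (Y Z Z' : Matrix ι ι ℂ) : ip Y (Z + Z') = ip Y Z + ip Y Z' := by
  unfold ip
  rw [mul_add, trace_add, Complex.add_re]

omit [DecidableEq ι] in
lemma ip_sub (Y Z Z' : Matrix ι ι ℂ) : ip Y (Z - Z') = ip Y Z - ip Y Z' := by
  unfold ip
  rw [mul_sub, trace_sub, Complex.sub_re]

omit [DecidableEq ι] in
lemma ip_comm (Y Z : Matrix ι ι ℂ) : ip Y Z = ip Z Y := by
  rw [ip_eq, ip_eq]
  refine Finset.sum_congr rfl fun k _ => ?_
  have : star (Z k) ⬝ᵥ Y k = star (star (Y k) ⬝ᵥ Z k) := by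
    rw [← star_dotProduct_star, star_star]
  rw [this, Complex.star_def, Complex.conj_re]

omit [DecidableEq ι] in
lemma ip_mul_left (M Y Z : Matrix ι ι ℂ) : ip (M * Y) Z = ip Y (Mᴴ * Z) := by
  unfold ip
  rw [conjTranspose_mul, Matrix.mul_assoc]

omit [DecidableEq ι] in
lemma ip_zero_right (Y : Matrix ι ι ℂ) : ip Y 0 = 0 := by
  unfold ip
  simp

/-- Matrices living on two rows. -/
def On (i j : ι) (Z : Matrix ι ι ℂ) : Prop := ∀ k, k ≠ i → k ≠ j → ∀ l, Z k l = 0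

lemma ip_On {i j : ι} (hij : i ≠ j) {Y Z : Matrix ι ι ℂ} (hZ : On i j Z) :
    ip Y Z = (star (Y i) ⬝ᵥ Z i).re + (star (Y j) ⬝ᵥ Z j).re := by
  rw [ip_eq, ← Finset.sum_pair (f := fun k => (star (Y k) ⬝ᵥ Z k).re) hij]
  symm
  refine Finset.sum_subset (Finset.subset_univ _) ?_
  intro k _ hk
  rw [Finset.mem_insert, Finset.mem_singleton, not_or] at hk
  unfold dotProduct
  rw [Finset.sum_eq_zero]
  · rfl
  · intro l _
    rw [hZ k hk.1 hk.2 l, mul_zero]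

/-- Contractions. -/
def Con (M : Matrix ι ι ℂ) : Prop := (∀ x, nr (M *ᵥ x) ≤ nr x) ∧ ∀ x, nr (x ᵥ* M) ≤ nr x

lemma Con.one : Con (1 : Matrix ι ι ℂ) := by
  constructor
  · intro x; rw [one_mulVec]
  · intro x; rw [vecMul_one]

omit [DecidableEq ι] in
lemma Con.mul {M N : Matrix ι ι ℂ} (hM : Con M) (hN : Con N) : Con (M * N) := by
  constructor
  · intro x
    rw [← mulVec_mulVec]
    exact (hM.1 _).trans (hN.1 _)
  · intro x
    rw [← vecMul_vecMul]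
    exact (hN.2 _).trans (hM.2 _)

lemma Con.row {M : Matrix ι ι ℂ} (hM : Con M) (a : ι) : nr (M a) ≤ 1 := by
  have h := hM.2 (Pi.single a 1)
  rw [single_one_vecMul] at h
  refine h.trans (le_of_eq ?_)
  unfold nr
  rw [Finset.sum_eq_single a]
  · simp
  · intro b _ hb
    rw [Pi.single_eq_of_ne hb]
    simp
  · intro h; exact absurd (Finset.mem_univ a) h

omit [DecidableEq ι] in
lemma Con.row_mul {M N : Matrix ι ι ℂ} (hN : Con N) (a : ι) : nr ((M * N) a) ≤ nr (M a) := by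
  rw [mul_apply_eq_vecMul]
  exact hN.2 _

lemma Con.diag {M : Matrix ι ι ℂ} (hM : Con M) (a : ι) : ‖M a a‖ ≤ 1 := by
  have h1 := (le_nr (M a) a).trans (hM.row a)
  nlinarith [norm_nonneg (M a a)]

omit [DecidableEq ι] in
lemma nr_mulVec (M : Matrix ι ι ℂ) (x : ι → ℂ) :
    ((nr (M *ᵥ x) : ℝ) : ℂ) = star x ⬝ᵥ ((Mᴴ * M) *ᵥ x) := by
  rw [nr_eq, star_mulVec, ← dotProduct_mulVec, mulVec_mulVec]

omit [DecidableEq ι] in
lemma nr_vecMul (M : Matrix ι ι ℂ) (x : ι → ℂ) : nr (x ᵥ* M) = nr (Mᴴ *ᵥ star x) := by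
  rw [← nr_star (x ᵥ* M), star_vecMul]

lemma nr_unitary {U : Matrix ι ι ℂ} (hU : Uᴴ * U = 1) (x : ι → ℂ) : nr (U *ᵥ x) = nr x := by
  have h := nr_mulVec U x
  rw [hU, one_mulVec, ← nr_eq] at h
  exact_mod_cast h

lemma Con.unitary {U : Matrix ι ι ℂ} (h1 : Uᴴ * U = 1) (h2 : U * Uᴴ = 1) : Con U := by
  constructor
  · intro x; exact (nr_unitary h1 x).le
  · intro x
    rw [nr_vecMul, nr_unitary (by rw [conjTranspose_conjTranspose]; exact h2), nr_star]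

/-- Hermitian projections are contractions. -/
lemma Con.proj {P : Matrix ι ι ℂ} (h1 : Pᴴ = P) (h2 : P * P = P) : Con P := by
  have key : ∀ x, nr (P *ᵥ x) ≤ nr x := by
    intro x
    have h3 := nr_mulVec P x
    have h4 := nr_mulVec (1 - P) x
    have h5 : (1 - P)ᴴ * (1 - P) = 1 - P := by
      rw [conjTranspose_sub, conjTranspose_one, h1, sub_mul, one_mul, mul_sub, mul_one, h2,
        sub_self, sub_zero]
    rw [h1, h2] at h3
    have h7 : star x ⬝ᵥ ((1 - P) *ᵥ x) = ((nr x - nr (P *ᵥ x) : ℝ) : ℂ) := by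
      rw [sub_mulVec, one_mulVec, dotProduct_sub, ← nr_eq, ← h3]
      push_cast
      rfl
    rw [h5, h7] at h4
    have h6 : nr ((1 - P) *ᵥ x) = nr x - nr (P *ᵥ x) := by exact_mod_cast h4
    have := nr_nonneg ((1 - P) *ᵥ x)
    linarith
  constructor
  · exact key
  · intro x
    rw [nr_vecMul, h1, ← nr_star x]
    exact key _

/-! ### Two-coordinate matrices -/

/-- Two-coordinate matrices with rows of norm at most one. -/
structure Tc (i j : ι) (M : Matrix ι ι ℂ) : Prop where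
  ne : i ≠ j
  off : ∀ k, k ≠ i → k ≠ j → ∀ l, M k l = (1 : Matrix ι ι ℂ) k l
  zi : ∀ l, l ≠ i → l ≠ j → M i l = 0
  zj : ∀ l, l ≠ i → l ≠ j → M j l = 0
  ni : ‖M i i‖ ^ 2 + ‖M i j‖ ^ 2 ≤ 1
  nj : ‖M j i‖ ^ 2 + ‖M j j‖ ^ 2 ≤ 1

lemma Tc.mul_off {i j : ι} {M : Matrix ι ι ℂ} (h : Tc i j M) (Y : Matrix ι ι ℂ) {k : ι}
    (hi : k ≠ i) (hj : k ≠ j) (l : ι) : (M * Y) k l = Y k l := by
  rw [mul_apply]
  have : ∀ r ∈ Finset.univ, M k r * Y r l = (1 : Matrix ι ι ℂ) k r * Y r l := fun r _ => by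
    rw [h.off k hi hj r]
  rw [Finset.sum_congr rfl this, ← mul_apply, one_mul]

lemma Tc.mul_i {i j : ι} {M : Matrix ι ι ℂ} (h : Tc i j M) (Y : Matrix ι ι ℂ) (l : ι) :
    (M * Y) i l = M i i * Y i l + M i j * Y j l := by
  rw [mul_apply, ← Finset.sum_pair (f := fun k => M i k * Y k l) h.ne]
  symm
  refine Finset.sum_subset (Finset.subset_univ _) ?_
  intro k _ hk
  rw [Finset.mem_insert, Finset.mem_singleton, not_or] at hk
  rw [h.zi k hk.1 hk.2, zero_mul]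

lemma Tc.mul_j {i j : ι} {M : Matrix ι ι ℂ} (h : Tc i j M) (Y : Matrix ι ι ℂ) (l : ι) :
    (M * Y) j l = M j i * Y i l + M j j * Y j l := by
  rw [mul_apply, ← Finset.sum_pair (f := fun k => M j k * Y k l) h.ne]
  symm
  refine Finset.sum_subset (Finset.subset_univ _) ?_
  intro k _ hk
  rw [Finset.mem_insert, Finset.mem_singleton, not_or] at hk
  rw [h.zj k hk.1 hk.2, zero_mul]

/-- The truncation of a matrix. -/
def Tz (b : ℝ) (Y : Matrix ι ι ℂ) : Matrix ι ι ℂ := Matrix.of fun k l => tz b (Y k l)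

omit [Fintype ι] [DecidableEq ι] in
@[simp] lemma Tz_apply (b : ℝ) (Y : Matrix ι ι ℂ) (k l : ι) : Tz b Y k l = tz b (Y k l) := rfl

/-- The truncation error. -/
lemma Tc.err_On {i j : ι} {M : Matrix ι ι ℂ} (h : Tc i j M) (b : ℝ) (Y : Matrix ι ι ℂ) :
    On i j (Tz b (M * Y) - M * Tz b Y) := by
  intro k hi hj l
  rw [Matrix.sub_apply, h.mul_off _ hi hj, Tz_apply, h.mul_off _ hi hj, Tz_apply, sub_self]

lemma Tc.err_le {i j : ι} {M : Matrix ι ι ℂ} (h : Tc i j M) {b : ℝ} (hb : 0 < b)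
    (Y : Matrix ι ι ℂ) {a : ι} (ha : a = i ∨ a = j) (l : ι) :
    ‖(Tz b (M * Y) - M * Tz b Y) a l‖ ≤ 12 / b * √(‖Y i l‖ ^ 2 + ‖Y j l‖ ^ 2) := by
  rcases ha with rfl | rfl
  · rw [Matrix.sub_apply, h.mul_i, Tz_apply, h.mul_i, Tz_apply, Tz_apply]
    exact tz_key hb h.ni
  · rw [Matrix.sub_apply, h.mul_j, Tz_apply, h.mul_j, Tz_apply, Tz_apply]
    exact tz_key hb h.nj

lemma Tc.err_zero {i j : ι} {M : Matrix ι ι ℂ} (h : Tc i j M) {b : ℝ} (hb : 0 < b)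
    (Y : Matrix ι ι ℂ) {a : ι} (ha : a = i ∨ a = j) (l : ι)
    (hl : ‖Y i l‖ ^ 2 + ‖Y j l‖ ^ 2 ≤ Real.exp (-b)) :
    (Tz b (M * Y) - M * Tz b Y) a l = 0 := by
  rcases ha with rfl | rfl
  · rw [Matrix.sub_apply, h.mul_i, Tz_apply, h.mul_i, Tz_apply, Tz_apply]
    exact tz_key0 hb h.ni hl
  · rw [Matrix.sub_apply, h.mul_j, Tz_apply, h.mul_j, Tz_apply, Tz_apply]
    exact tz_key0 hb h.nj hl

/-- The squared norm of the rows of the truncation error. -/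
lemma Tc.err_nr {i j : ι} {M : Matrix ι ι ℂ} (h : Tc i j M) {b : ℝ} (hb : 0 < b)
    (Y : Matrix ι ι ℂ) {a : ι} (ha : a = i ∨ a = j) :
    nr ((Tz b (M * Y) - M * Tz b Y) a) ≤ (12 / b) ^ 2 * (nr (Y i) + nr (Y j)) := by
  unfold nr
  rw [← Finset.sum_add_distrib, Finset.mul_sum]
  refine Finset.sum_le_sum fun l _ => ?_
  have h1 := h.err_le hb Y ha l
  have h2 : (√(‖Y i l‖ ^ 2 + ‖Y j l‖ ^ 2)) ^ 2 = ‖Y i l‖ ^ 2 + ‖Y j l‖ ^ 2 :=
    Real.sq_sqrt (by positivity)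
  rw [← h2, ← mul_pow]
  gcongr

/-- The diagonal matrix which is `1` on the two coordinates. -/
def Pr (i j : ι) : Matrix ι ι ℂ := diagonal fun k => if k = i ∨ k = j then 1 else 0

lemma Pr_mul (i j : ι) (Y : Matrix ι ι ℂ) (k l : ι) :
    (Pr i j * Y) k l = if k = i ∨ k = j then Y k l else 0 := by
  unfold Pr
  rw [diagonal_mul]
  split_ifs <;> simp

lemma Pr_herm (i j : ι) : (Pr i j)ᴴ = Pr i j := by
  unfold Pr
  rw [diagonal_conjTranspose]
  congr 1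
  funext k
  rw [Pi.star_apply]
  split_ifs <;> simp

lemma Pr_sq (i j : ι) : Pr i j * Pr i j = Pr i j := by
  unfold Pr
  rw [diagonal_mul_diagonal]
  congr 1
  funext k
  split_ifs <;> simp

lemma Pr_On (i j : ι) (Y : Matrix ι ι ℂ) : On i j (Pr i j * Y) := by
  intro k hi hj l
  rw [Pr_mul, if_neg (by tauto)]

lemma nr_Pr {i j : ι} (hij : i ≠ j) (x : ι → ℂ) :
    nr (Pr i j *ᵥ x) = ‖x i‖ ^ 2 + ‖x j‖ ^ 2 := by
  unfold nr Pr
  rw [← Finset.sum_pair (f := fun k => ‖x k‖ ^ 2) hij]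
  symm
  have h1 : ∀ k ∈ ({i, j} : Finset ι), ‖x k‖ ^ 2 =
      ‖(diagonal (fun k => if k = i ∨ k = j then (1 : ℂ) else 0) *ᵥ x) k‖ ^ 2 := by
    intro k hk
    rw [Finset.mem_insert, Finset.mem_singleton] at hk
    rw [mulVec_diagonal, if_pos hk, one_mul]
  rw [Finset.sum_congr rfl h1]
  refine Finset.sum_subset (Finset.subset_univ _) ?_
  intro k _ hk
  rw [Finset.mem_insert, Finset.mem_singleton] at hk
  rw [mulVec_diagonal, if_neg hk]
  simp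

/-- The damped gate. -/
def Ld (δ : ℝ) (i j : ι) (R : Matrix ι ι ℂ) : Matrix ι ι ℂ := R - (δ : ℂ) • (Pr i j * R)

lemma Ld_apply (δ : ℝ) (i j : ι) (R : Matrix ι ι ℂ) (k l : ι) :
    Ld δ i j R k l = (if k = i ∨ k = j then ((1 - δ : ℝ) : ℂ) else 1) * R k l := by
  unfold Ld
  rw [Matrix.sub_apply, Matrix.smul_apply, Pr_mul, smul_eq_mul]
  split_ifs
  · push_cast; ring
  · ring

/-- Gates: two-coordinate unitary matrices. -/
structure Gt (i j : ι) (R : Matrix ι ι ℂ) : Prop where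
  ne : i ≠ j
  un : Rᴴ * R = 1
  un' : R * Rᴴ = 1
  off : ∀ k l, ¬ ((k = i ∨ k = j) ∧ (l = i ∨ l = j)) → R k l = (1 : Matrix ι ι ℂ) k l

lemma Gt.con {i j : ι} {R : Matrix ι ι ℂ} (h : Gt i j R) : Con R := Con.unitary h.un h.un'

lemma Gt.gl {i j : ι} {R : Matrix ι ι ℂ} (h : Gt i j R) : Tc i j R := by
  have hrow : ∀ a, ‖R a i‖ ^ 2 + ‖R a j‖ ^ 2 ≤ 1 := by
    intro a
    refine le_trans ?_ (h.con.row a)
    unfold nr
    rw [← Finset.sum_pair (f := fun k => ‖R a k‖ ^ 2) h.ne]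
    exact Finset.sum_le_sum_of_subset_of_nonneg (Finset.subset_univ _) fun _ _ _ => by positivity
  refine ⟨h.ne, ?_, ?_, ?_, hrow i, hrow j⟩
  · intro k hi hj l
    exact h.off k l (by tauto)
  · intro l hi hj
    rw [h.off i l (by tauto), one_apply_ne (Ne.symm hi)]
  · intro l hi hj
    rw [h.off j l (by tauto), one_apply_ne (Ne.symm hj)]

lemma Gt.gl_Ld {i j : ι} {R : Matrix ι ι ℂ} (h : Gt i j R) {δ : ℝ} (h0 : 0 ≤ δ) (h1 : δ ≤ 1) :
    Tc i j (Ld δ i j R) := by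
  have g := h.gl
  have hle : ∀ z : ℂ, ‖((1 - δ : ℝ) : ℂ) * z‖ ^ 2 ≤ ‖z‖ ^ 2 := by
    intro z
    rw [norm_mul, Complex.norm_real, Real.norm_of_nonneg (by linarith)]
    have : (1 - δ) * ‖z‖ ≤ ‖z‖ := mul_le_of_le_one_left (norm_nonneg _) (by linarith)
    have h2 : 0 ≤ (1 - δ) * ‖z‖ := mul_nonneg (by linarith) (norm_nonneg _)
    gcongr
  refine ⟨h.ne, ?_, ?_, ?_, ?_, ?_⟩
  · intro k hi hj l
    rw [Ld_apply, if_neg (by tauto), one_mul, g.off k hi hj l]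
  · intro l hi hj
    rw [Ld_apply, g.zi l hi hj, mul_zero]
  · intro l hi hj
    rw [Ld_apply, g.zj l hi hj, mul_zero]
  · rw [Ld_apply, Ld_apply, if_pos (Or.inl rfl)]
    exact (add_le_add (hle _) (hle _)).trans g.ni
  · rw [Ld_apply, Ld_apply, if_pos (Or.inr rfl)]
    exact (add_le_add (hle _) (hle _)).trans g.nj

/-- The damping identity. -/
lemma nr_Ld {i j : ι} {R : Matrix ι ι ℂ} (h : Gt i j R) (δ : ℝ) (x : ι → ℂ) :
    nr (Ld δ i j R *ᵥ x) = nr x - (2 * δ - δ ^ 2) * nr (Pr i j *ᵥ (R *ᵥ x)) := by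
  rw [nr_Pr h.ne]
  set y := R *ᵥ x with hy
  have h1 : nr x = nr y := (nr_unitary h.un x).symm
  have h2 : ∀ k, (Ld δ i j R *ᵥ x) k = (if k = i ∨ k = j then ((1 - δ : ℝ) : ℂ) else 1) * y k := by
    intro k
    rw [hy]
    unfold mulVec dotProduct
    rw [Finset.mul_sum]
    refine Finset.sum_congr rfl fun l _ => ?_
    beta_reduce
    rw [Ld_apply]
    ring
  rw [h1]
  have h3 : nr (Ld δ i j R *ᵥ x) = ∑ k, (‖y k‖ ^ 2 - (2 * δ - δ ^ 2) *
      (if k = i ∨ k = j then ‖y k‖ ^ 2 else 0)) := by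
    unfold nr
    refine Finset.sum_congr rfl fun k _ => ?_
    rw [h2]
    split_ifs
    · rw [norm_mul, Complex.norm_real, mul_pow, Real.norm_eq_abs, sq_abs]
      ring
    · rw [one_mul]; ring
  rw [h3, Finset.sum_sub_distrib, ← Finset.mul_sum, ← Finset.sum_filter]
  have h4 : (Finset.univ.filter (fun k => k = i ∨ k = j)) = ({i, j} : Finset ι) := by
    ext k
    simp
  rw [h4, Finset.sum_pair h.ne]
  rfl

lemma nr_Pr_Ld {i j : ι} {R : Matrix ι ι ℂ} (h : Gt i j R) (δ : ℝ) (x : ι → ℂ) :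
    nr (Pr i j *ᵥ (Ld δ i j R *ᵥ x)) = (1 - δ) ^ 2 * nr (Pr i j *ᵥ (R *ᵥ x)) := by
  rw [nr_Pr h.ne, nr_Pr h.ne]
  set y := R *ᵥ x with hy
  have h2 : ∀ k, (Ld δ i j R *ᵥ x) k = (if k = i ∨ k = j then ((1 - δ : ℝ) : ℂ) else 1) * y k := by
    intro k
    rw [hy]
    unfold mulVec dotProduct
    rw [Finset.mul_sum]
    refine Finset.sum_congr rfl fun l _ => ?_
    beta_reduce
    rw [Ld_apply]
    ring
  rw [h2, h2, if_pos (Or.inl rfl), if_pos (Or.inr rfl), norm_mul, norm_mul, Complex.norm_real,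
    mul_pow, mul_pow, Real.norm_eq_abs, sq_abs]
  ring

lemma nr_Ld_le {i j : ι} {R : Matrix ι ι ℂ} (h : Gt i j R) {δ : ℝ} (h0 : 0 ≤ δ) (h1 : δ ≤ 1)
    (x : ι → ℂ) : nr (Ld δ i j R *ᵥ x) ≤ nr x := by
  rw [nr_Ld h]
  have : 0 ≤ (2 * δ - δ ^ 2) * nr (Pr i j *ᵥ (R *ᵥ x)) :=
    mul_nonneg (by nlinarith) (nr_nonneg _)
  linarith

lemma Con.Ld {i j : ι} {R : Matrix ι ι ℂ} (h : Gt i j R) {δ : ℝ} (h0 : 0 ≤ δ) (h1 : δ ≤ 1) :
    Con (Ld δ i j R) := by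
  refine ⟨nr_Ld_le h h0 h1, ?_⟩
  intro x
  have e : x ᵥ* Pool.Agent.V8H59.RF.Ld δ i j R =
      (fun k => (if k = i ∨ k = j then ((1 - δ : ℝ) : ℂ) else 1) * x k) ᵥ* R := by
    funext l
    unfold vecMul dotProduct
    refine Finset.sum_congr rfl fun k _ => ?_
    beta_reduce
    rw [Ld_apply]
    ring
  rw [e]
  refine (h.con.2 _).trans ?_
  unfold nr
  refine Finset.sum_le_sum fun k _ => ?_
  beta_reduce
  split_ifs
  · rw [norm_mul, Complex.norm_real, Real.norm_of_nonneg (by linarith)]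
    have : (1 - δ) * ‖x k‖ ≤ ‖x k‖ := mul_le_of_le_one_left (norm_nonneg _) (by linarith)
    have h2 : 0 ≤ (1 - δ) * ‖x k‖ := mul_nonneg (by linarith) (norm_nonneg _)
    gcongr
  · rw [one_mul]

end

end Pool.Agent.V8H59.RF
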