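import Pool.Agent.V8H59.RF.Spec

set_option autoImplicit false

/-!
The numerical part: the lower bound for all sizes.
-/

open Matrix

namespace Pool.Agent.V8H59.RF

noncomputable section

variable {ι : Type*} [Fintype ι] [DecidableEq ι]

variable {m : ℕ} {ii jj : ℕ → ι} {R : ℕ → Matrix ι ι ℂ}

/-- Untouched coordinates. -/
lemma untouched (hR : ∀ t < m, Gt (ii t) (jj t) (R t)) {k : ι}
    (hk : ∀ t < m, k ≠ ii t ∧ k ≠ jj t) : ∀ t ≤ m, ∀ l, Wm R t k l = (1 : Matrix ι ι ℂ) k l := by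
  intro t
  induction t with
  | zero => intro _ l; rfl
  | succ t ih =>
    intro ht l
    have h := (hR t (by omega)).gl.mul_off (Wm R t) (hk t (by omega)).1 (hk t (by omega)).2 l
    have e : Wm R (t + 1) k l = (R t * Wm R t) k l := rfl
    rw [e, h, ih (by omega)]

/-- Every coordinate is used. -/
lemma card_le (hR : ∀ t < m, Gt (ii t) (jj t) (R t)) {G : Matrix ι ι ℂ} (hG4 : ∀ k, G k k = 0)
    {α : ℝ} (hX : Wm R m = ((Real.cos α : ℝ) : ℂ) • (1 : Matrix ι ι ℂ) +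
      ((Real.sin α : ℝ) : ℂ) • G) (hα : Real.cos α ≠ 1) : Fintype.card ι ≤ 2 * m := by
  have h1 : (Finset.univ : Finset ι) ⊆
      (Finset.range m).image ii ∪ (Finset.range m).image jj := by
    intro k _
    by_contra hc
    rw [Finset.mem_union, Finset.mem_image, Finset.mem_image] at hc
    push Not at hc
    have h2 := untouched hR (k := k) (fun t ht => ⟨fun h => hc.1 t (Finset.mem_range.2 ht) h.symm,
      fun h => hc.2 t (Finset.mem_range.2 ht) h.symm⟩) m le_rfl k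
    rw [hX, Matrix.add_apply, Matrix.smul_apply, Matrix.smul_apply, hG4, Matrix.one_apply_eq,
      smul_zero, add_zero, smul_eq_mul, mul_one] at h2
    exact hα (by exact_mod_cast h2)
  have h2 := Finset.card_le_card h1
  rw [Finset.card_univ] at h2
  have h3 := Finset.card_union_le ((Finset.range m).image ii) ((Finset.range m).image jj)
  have h4 := Finset.card_image_le (s := Finset.range m) (f := ii)
  have h5 := Finset.card_image_le (s := Finset.range m) (f := jj)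
  rw [Finset.card_range] at h4 h5
  omega

/-- The bound for large sizes. -/
lemma large (hR : ∀ t < m, Gt (ii t) (jj t) (R t)) {G : Matrix ι ι ℂ} {n : ℕ}
    (hcard : Fintype.card ι = 2 * n) (hG1 : Gᴴ = -G) (hG2 : G * G = -1)
    (hG3 : ∀ k l, ‖G k l‖ ≤ Real.exp (-(Real.log n / 2))) (hG4 : ∀ k, G k k = 0) {α : ℝ}
    (hX : Wm R m = ((Real.cos α : ℝ) : ℂ) • (1 : Matrix ι ι ℂ) + ((Real.sin α : ℝ) : ℂ) • G)
    (hα0 : 0 < α) (hα1 : α ≤ 1 / 10) {K : ℝ} (hK : 1 ≤ K) {r : ℕ} (hr : 3 * 10 ^ 6 * K ^ 2 ≤ r)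
    (hα2 : 32 * K * 2 ^ r * α * (10 ^ 18 * K ^ 5) ≤ r)
    (hn : 2304 * K ≤ Real.exp (Real.log n / 6)) : K * α * n * Real.log n < m := by
  by_contra hc
  push Not at hc
  set ℓ := Real.log n with hℓ
  have hK0 : 0 < K := by linarith
  have hℓ6 : 6 ≤ ℓ := by
    by_contra h
    push Not at h
    have h1 : Real.exp (ℓ / 6) ≤ Real.exp 1 := Real.exp_le_exp.2 (by linarith)
    have h2 := Real.exp_one_lt_d9
    linarith
  have hℓ0 : 0 < ℓ := by linarith
  have hn0 : (0 : ℝ) < n := by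
    rcases Nat.eq_zero_or_pos n with h | h
    · rw [hℓ, h] at hℓ0
      simp at hℓ0
    · exact_mod_cast h
  have hr1 : 1 ≤ r := by
    have : (0 : ℝ) < r := lt_of_lt_of_le (by positivity) hr
    exact_mod_cast this
  have hr0 : (0 : ℝ) < r := by exact_mod_cast hr1
  have hm0 : (0 : ℝ) ≤ m := Nat.cast_nonneg m
  set b := ℓ / 3 with hb
  have hb0 : 0 < b := by positivity
  have hexp : Real.exp (-(b / 2)) * (2304 * K) ≤ 1 := by
    have h1 : Real.exp (-(b / 2)) * Real.exp (ℓ / 6) = 1 := by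
      rw [← Real.exp_add, hb]
      have : -(ℓ / 3 / 2) + ℓ / 6 = 0 := by ring
      rw [this, Real.exp_zero]
    rw [← h1]
    exact mul_le_mul_of_nonneg_left hn (Real.exp_pos _).le
  have hexp0 := Real.exp_pos (-(b / 2))
  have hb4 : Real.exp (-(b / 2)) ≤ 1 / 4 := by nlinarith
  -- trigonometry
  have hcos : 99 / 100 ≤ Real.cos α := by
    have h1 := Real.one_sub_sq_div_two_le_cos (x := α)
    nlinarith
  have hsin : 99 / 100 * α ≤ Real.sin α := by
    have h1 := Real.sin_gt_sub_cube hα0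
    nlinarith [mul_pos hα0 hα0]
  have hsin0 : 0 ≤ Real.sin α := by nlinarith
  -- the parameters
  set δ := 1 / (16 * K * ℓ) with hδ
  have hδ0 : 0 < δ := by positivity
  have hδ1 : δ ≤ 1 / 2 := by
    rw [hδ]
    apply one_div_le_one_div_of_le (by norm_num)
    nlinarith
  set D0 := ℓ / (2 ^ r * (10 ^ 18 * K ^ 5)) with hD0
  have hD00 : 0 < D0 := by positivity
  have hcore := core2 hR hb0 hδ0 hδ1 hb4 hG1 hG2 (fun k l => (hG3 k l).trans (le_of_eq (by
    congr 1; rw [hb]; ring))) hG4 hX hsin0 (by nlinarith) hr1 hD00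
  -- the right side
  have e1 : 2 ^ r * D0 / δ = (4 * ℓ / (10 ^ 9 * K ^ 2)) ^ 2 := by
    rw [hD0, hδ]
    field_simp
    ring
  have e2 : √(2 ^ r * D0 / δ) = 4 * ℓ / (10 ^ 9 * K ^ 2) := by
    rw [e1, Real.sqrt_sq (by positivity)]
  have e3 : 36 / b * √(2 ^ r * D0 / δ) = 432 / (10 ^ 9 * K ^ 2) := by
    rw [e2, hb]
    field_simp
    ring
  have e4 : 2 * m * (4 * m / r + 36 / b * √(2 ^ r * D0 / δ) * m) ≤ ((1 / 500) / K * m) ^ 2 := by
    rw [e3]
    have h1 : 4 * (m : ℝ) / r ≤ 4 * m / (3 * 10 ^ 6 * K ^ 2) :=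
      div_le_div_of_nonneg_left (by positivity) (by positivity) hr
    have h2 : 2 * (m : ℝ) * (4 * m / r + 432 / (10 ^ 9 * K ^ 2) * m) ≤
        2 * m * (4 * m / (3 * 10 ^ 6 * K ^ 2) + 432 / (10 ^ 9 * K ^ 2) * m) := by gcongr
    refine h2.trans ?_
    have e5 : 2 * (m : ℝ) * (4 * m / (3 * 10 ^ 6 * K ^ 2) + 432 / (10 ^ 9 * K ^ 2) * m) =
        (8 / (3 * 10 ^ 6) + 864 / 10 ^ 9) * (m ^ 2 / K ^ 2) := by
      field_simp
      ring
    have e6 : ((1 / 500) / K * (m : ℝ)) ^ 2 = (1 / 250000) * (m ^ 2 / K ^ 2) := by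
      field_simp
      ring
    rw [e5, e6]
    apply mul_le_mul_of_nonneg_right _ (by positivity)
    norm_num
  have e7 : √(2 * m * (4 * m / r + 36 / b * √(2 ^ r * D0 / δ) * m)) ≤ (1 / 500) / K * m := by
    rw [← Real.sqrt_sq (by positivity : 0 ≤ (1 / 500) / K * (m : ℝ))]
    exact Real.sqrt_le_sqrt e4
  -- `m / ℓ ≤ K α n`
  have hmℓ : (m : ℝ) / ℓ ≤ K * α * n := by
    rw [div_le_iff₀ hℓ0]
    exact hc
  have hrhs : m * (2 * δ + 96 / b * Real.exp (-(b / 2))) +
        36 / b * √(2 * m * (4 * m / r + 36 / b * √(2 ^ r * D0 / δ) * m)) ≤ α * n / 2 := by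
    have g1 : m * (2 * δ) = (m / ℓ) * (1 / (8 * K)) := by
      rw [hδ]; field_simp; ring
    have g2 : (m : ℝ) * (96 / b * Real.exp (-(b / 2))) =
        (m / ℓ) * (288 * Real.exp (-(b / 2))) := by
      rw [hb]; field_simp; ring
    have g3 : 36 / b * ((1 / 500) / K * m) = (m / ℓ) * (27 / 125 / K) := by
      rw [hb]; field_simp; ring
    have g4 : 36 / b * √(2 * m * (4 * m / r + 36 / b * √(2 ^ r * D0 / δ) * m)) ≤
        36 / b * ((1 / 500) / K * m) := mul_le_mul_of_nonneg_left e7 (by positivity)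
    have g5 : 288 * Real.exp (-(b / 2)) ≤ 1 / (8 * K) := by
      rw [le_div_iff₀ (by positivity)]
      linarith
    have hmℓ0 : 0 ≤ (m : ℝ) / ℓ := by positivity
    rw [mul_add, g1, g2]
    rw [g3] at g4
    have g6 : (m : ℝ) / ℓ * (288 * Real.exp (-(b / 2))) ≤ m / ℓ * (1 / (8 * K)) :=
      mul_le_mul_of_nonneg_left g5 hmℓ0
    calc _ ≤ m / ℓ * (1 / (8 * K)) + m / ℓ * (1 / (8 * K)) + m / ℓ * (27 / 125 / K) := by linarith
      _ = (m / ℓ) * ((1 / 4 + 27 / 125) / K) := by field_simp; ring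
      _ ≤ (K * α * n) * ((1 / 4 + 27 / 125) / K) := by gcongr
      _ = α * n * (1 / 4 + 27 / 125) := by field_simp
      _ ≤ α * n / 2 := by
        have : 0 ≤ α * n := by positivity
        linarith
  -- the left side
  have l1 : 8 * m / (r * D0) ≤ n / 4 := by
    have g1 : 8 * (m : ℝ) / (r * D0) = (m / ℓ) * (8 * 2 ^ r * (10 ^ 18 * K ^ 5) / r) := by
      rw [hD0]; field_simp
    rw [g1]
    calc (m / ℓ) * (8 * 2 ^ r * (10 ^ 18 * K ^ 5) / r) ≤
          (K * α * n) * (8 * 2 ^ r * (10 ^ 18 * K ^ 5) / r) := by gcongr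
      _ = n / 4 * ((32 * K * 2 ^ r * α * (10 ^ 18 * K ^ 5)) / r) := by ring
      _ ≤ n / 4 * 1 := by
          apply mul_le_mul_of_nonneg_left _ (by positivity)
          rw [div_le_one hr0]
          exact hα2
      _ = n / 4 := mul_one _
  have l2 : 2 * δ * m ≤ n / 8 := by
    have g1 : 2 * δ * m = (m / ℓ) * (1 / (8 * K)) := by
      rw [hδ]; field_simp; ring
    rw [g1]
    calc (m / ℓ) * (1 / (8 * K)) ≤ (K * α * n) * (1 / (8 * K)) := by gcongr
      _ = α * (n / 8) := by field_simp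
      _ ≤ 1 * (n / 8) := by
          apply mul_le_mul_of_nonneg_right _ (by positivity)
          linarith
      _ = n / 8 := one_mul _
  have l3 : (n : ℝ) * (3 / 2) ≤ Fintype.card ι * Real.cos α - 8 * m / (r * D0) - 2 * δ * m := by
    rw [hcard]
    push_cast
    nlinarith
  have l4 : 99 / 100 * α * (n * (3 / 2)) ≤
      Real.sin α * (Fintype.card ι * Real.cos α - 8 * m / (r * D0) - 2 * δ * m) := by
    have h1 : 99 / 100 * α * (n * (3 / 2)) ≤ Real.sin α * (n * (3 / 2)) :=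
      mul_le_mul_of_nonneg_right hsin (by positivity)
    exact h1.trans (mul_le_mul_of_nonneg_left l3 hsin0)
  have h5 : 0 < α * n := by positivity
  have h6 := l4.trans (hcore.trans hrhs)
  nlinarith

/-- The asymptotic conditions. -/
lemma ev_cond : ∃ L0 : ℝ, 1 ≤ L0 ∧ ∀ L : ℝ, L0 ≤ L →
    2450 ^ 2 ≤ L ∧ 10 ^ 21 * L ^ 3 * Real.exp (-(L / 2)) ≤ 1 ∧
      13824 * L * Real.exp (-L) ≤ 1 := by
  have h1 := (Real.tendsto_pow_mul_exp_neg_atTop_nhds_zero 3).comp
    (Filter.tendsto_id.atTop_div_const (by norm_num : (0 : ℝ) < 2))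
  have h2 := Real.tendsto_pow_mul_exp_neg_atTop_nhds_zero 1
  have e1 := h1.eventually (ge_mem_nhds (by norm_num : (0 : ℝ) < 1 / (8 * 10 ^ 21)))
  have e2 := h2.eventually (ge_mem_nhds (by norm_num : (0 : ℝ) < 1 / 13824))
  obtain ⟨L1, hL1⟩ := Filter.eventually_atTop.1 (e1.and e2)
  refine ⟨max L1 (2450 ^ 2), le_trans (by norm_num) (le_max_right _ _), ?_⟩
  intro L hL
  have hL2 : 2450 ^ 2 ≤ L := (le_max_right _ _).trans hL
  obtain ⟨g1, g2⟩ := hL1 L ((le_max_left _ _).trans hL)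
  refine ⟨hL2, ?_, ?_⟩
  · have g3 : (L / 2) ^ 3 * Real.exp (-(L / 2)) ≤ 1 / (8 * 10 ^ 21) := g1
    have e : 10 ^ 21 * L ^ 3 * Real.exp (-(L / 2)) =
        8 * 10 ^ 21 * ((L / 2) ^ 3 * Real.exp (-(L / 2))) := by ring
    rw [e]
    calc _ ≤ 8 * 10 ^ 21 * (1 / (8 * 10 ^ 21) : ℝ) := by gcongr
      _ = 1 := by norm_num
  · have g3 : L ^ 1 * Real.exp (-L) ≤ 1 / 13824 := g2
    rw [pow_one] at g3
    linarith

/-- **The lower bound.** -/
theorem lower : ∃ c : ℝ, 0 < c ∧ ∃ α0 : ℝ, 0 < α0 ∧ α0 < 1 ∧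
    ∀ (ι : Type) [Fintype ι] [DecidableEq ι] (m n : ℕ) (ii jj : ℕ → ι)
      (R : ℕ → Matrix ι ι ℂ) (G : Matrix ι ι ℂ) (α : ℝ),
      (∀ t < m, Gt (ii t) (jj t) (R t)) → 2 ≤ n → Fintype.card ι = 2 * n → Gᴴ = -G →
      G * G = -1 → (∀ k l, ‖G k l‖ ≤ 1 / √n) → (∀ k, G k k = 0) → 0 < α → α < α0 →
      Wm R m = ((Real.cos α : ℝ) : ℂ) • (1 : Matrix ι ι ℂ) + ((Real.sin α : ℝ) : ℂ) • G →
      c * α * √(Real.log (1 / α)) * (n * Real.log n) ≤ m := by
  obtain ⟨L0, hL0, hcond⟩ := ev_cond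
  refine ⟨1 / 2450, by norm_num, Real.exp (-L0), Real.exp_pos _,
    (Real.exp_lt_exp.2 (by linarith : -L0 < 0)).trans_eq Real.exp_zero, ?_⟩
  intro ι _ _ m n ii jj R G α hR hn hcard hG1 hG2 hG3 hG4 hα0 hα1 hX
  set L := Real.log (1 / α) with hL
  have hαL : α = Real.exp (-L) := by
    rw [hL, one_div, Real.log_inv, neg_neg, Real.exp_log hα0]
  have hLL : L0 ≤ L := by
    rw [hL, one_div, Real.log_inv]
    have h1 := Real.log_le_log hα0 hα1.le
    rw [Real.log_exp] at h1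
    linarith
  obtain ⟨c1, c2, c3⟩ := hcond L hLL
  have hL1 : 0 < L := by linarith
  set K := 1 / 2450 * √L with hK
  have hsqL : √L ^ 2 = L := Real.sq_sqrt hL1.le
  have hK1 : 1 ≤ K := by
    have : 2450 ≤ √L := Real.le_sqrt_of_sq_le c1
    rw [hK]
    linarith
  have hK0 : 0 < K := by linarith
  have hK2 : 6 * 10 ^ 6 * K ^ 2 ≤ L := by
    rw [hK, mul_pow, hsqL]
    nlinarith
  have hn0 : (0 : ℝ) < n := by
    have : 0 < n := by omega
    exact_mod_cast this
  have hn1 : (1 : ℝ) ≤ n := by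
    have : 1 ≤ n := by omega
    exact_mod_cast this
  have hlogn : 0 ≤ Real.log n := Real.log_nonneg hn1
  have e0 : 1 / 2450 * α * √L * (n * Real.log n) = K * α * n * Real.log n := by
    rw [hK]; ring
  rw [e0]
  have hL3 : Real.log 10 ≤ L := by
    have : Real.log 10 ≤ 10 := by
      have := Real.log_le_sub_one_of_pos (by norm_num : (0 : ℝ) < 10)
      linarith
    linarith
  have hα10 : α ≤ 1 / 10 := by
    rw [hαL]
    calc Real.exp (-L) ≤ Real.exp (-Real.log 10) := Real.exp_le_exp.2 (by linarith)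
      _ = 1 / 10 := by rw [Real.exp_neg, Real.exp_log (by norm_num)]; norm_num
  have hcosne : Real.cos α ≠ 1 := by
    intro h
    rw [Real.cos_eq_one_iff_of_lt_of_lt (by linarith [Real.pi_gt_three])
      (by linarith [Real.pi_gt_three])] at h
    linarith
  have hmn : n ≤ m := by
    have := card_le hR hG4 hX hcosne
    omega
  by_cases hcase : K * α * Real.log n ≤ 1
  · calc K * α * n * Real.log n = (K * α * Real.log n) * n := by ring
      _ ≤ 1 * n := by gcongr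
      _ = n := one_mul _
      _ ≤ m := by exact_mod_cast hmn
  · push Not at hcase
    -- the number of scales
    set r := ⌈3 * 10 ^ 6 * K ^ 2⌉₊ with hr
    have hr1 : 3 * 10 ^ 6 * K ^ 2 ≤ r := Nat.le_ceil _
    have hr2 : (r : ℝ) < 3 * 10 ^ 6 * K ^ 2 + 1 := Nat.ceil_lt_add_one (by positivity)
    have hr3 : (r : ℝ) ≤ L / 2 + 1 := by linarith
    have hr4 : (1 : ℝ) ≤ r := by nlinarith
    have h2r : (2 : ℝ) ^ r ≤ Real.exp (L / 2 + 1) := by
      calc (2 : ℝ) ^ r ≤ (Real.exp 1) ^ r := by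
            have := Real.add_one_le_exp (1 : ℝ)
            gcongr
            linarith
        _ = Real.exp r := by rw [← Real.exp_nat_mul, mul_one]
        _ ≤ _ := Real.exp_le_exp.2 hr3
    have hK6 : K ^ 6 ≤ L ^ 3 := by
      have h1 : K ^ 2 ≤ L := by nlinarith [sq_nonneg K]
      calc K ^ 6 = (K ^ 2) ^ 3 := by ring
        _ ≤ L ^ 3 := by gcongr
    have hcnd : 32 * K * 2 ^ r * α * (10 ^ 18 * K ^ 5) ≤ r := by
      refine le_trans ?_ hr4
      have h3 : Real.exp (L / 2 + 1) * α = Real.exp 1 * Real.exp (-(L / 2)) := by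
        rw [hαL, ← Real.exp_add, ← Real.exp_add]
        congr 1
        ring
      have h4 := Real.exp_one_lt_d9
      calc 32 * K * 2 ^ r * α * (10 ^ 18 * K ^ 5) = 32 * 10 ^ 18 * K ^ 6 * (2 ^ r * α) := by ring
        _ ≤ 32 * 10 ^ 18 * L ^ 3 * (Real.exp (L / 2 + 1) * α) := by gcongr
        _ = 32 * 10 ^ 18 * L ^ 3 * (Real.exp 1 * Real.exp (-(L / 2))) := by rw [h3]
        _ ≤ 32 * 10 ^ 18 * L ^ 3 * (3 * Real.exp (-(L / 2))) := by
            gcongr
            linarith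
        _ = (96 / 1000) * (10 ^ 21 * L ^ 3 * Real.exp (-(L / 2))) := by ring
        _ ≤ (96 / 1000) * 1 := by gcongr
        _ ≤ 1 := by norm_num
    have hbig : 2304 * K ≤ Real.exp (Real.log n / 6) := by
      have h1 : 13824 * K ^ 2 * α ≤ 1 := by
        rw [hαL]
        refine le_trans ?_ c3
        have h1 : K ^ 2 ≤ L := by nlinarith [sq_nonneg K]
        gcongr
      have h2 : 13824 * K < Real.log n := by
        have h3 : 13824 * K ^ 2 * α < K * α * Real.log n := by linarith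
        have h4 : 0 < K * α := by positivity
        nlinarith
      have h5 := Real.add_one_le_exp (Real.log n / 6)
      linarith
    exact (large hR hcard hG1 hG2 (fun k l => (hG3 k l).trans (le_of_eq (by
      rw [Real.exp_neg, one_div, Real.sqrt_eq_rpow, Real.rpow_def_of_pos hn0]
      congr 2
      ring))) hG4 hX hα0 hα10 hK1 hr1 hcnd hbig).le

end

end Pool.Agent.V8H59.RF
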