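import Pool.Agent.V8H59.RF.Core

set_option autoImplicit false

/-!
The bound for the hot parts: backward matrices and the Cauchy-Schwarz inequality.
-/

open Matrix

namespace Pool.Agent.V8H59.RF

noncomputable section

variable {ι : Type*} [Fintype ι] [DecidableEq ι]

/-- Backward recursion. -/
lemma back {α : Type*} (z : α) (m : ℕ) : ∀ f : ℕ → α → α,
    ∃ Z : ℕ → α, Z m = z ∧ ∀ t < m, Z t = f t (Z (t + 1)) := by
  induction m with
  | zero => exact fun f => ⟨fun _ => z, rfl, fun t ht => absurd ht (by omega)⟩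
  | succ m ih =>
    intro f
    obtain ⟨Z, h1, h2⟩ := ih (fun t => f (t + 1))
    refine ⟨fun t => if t = 0 then f 0 (Z 0) else Z (t - 1), ?_, ?_⟩
    · simpa using h1
    · intro t ht
      rcases t with _ | t
      · simp
      · have := h2 t (by omega)
        simpa using this

lemma cs2 {p q r s : ℝ} (hp : 0 ≤ p) (hq : 0 ≤ q) (hr : 0 ≤ r) (hs : 0 ≤ s) :
    √p * √q + √r * √s ≤ √(p + r) * √(q + s) := by
  refine (Real.le_sqrt_of_sq_le ?_).trans (le_of_eq (Real.sqrt_mul (by positivity) _))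
  have h1 := Real.sq_sqrt hp
  have h2 := Real.sq_sqrt hq
  have h3 := Real.sq_sqrt hr
  have h4 := Real.sq_sqrt hs
  have e : (p + r) * (q + s) = (√p ^ 2 + √r ^ 2) * (√q ^ 2 + √s ^ 2) := by rw [h1, h2, h3, h4]
  rw [e]
  nlinarith [sq_nonneg (√p * √s - √r * √q)]

/-- The pairing with a two-coordinate projection. -/
lemma pr_pair (i j : ι) (x y : ι → ℂ) :
    ‖star x ⬝ᵥ (Pr i j *ᵥ y)‖ ≤ √(nr (Pr i j *ᵥ x)) * √(nr (Pr i j *ᵥ y)) := by
  have e : star x ⬝ᵥ (Pr i j *ᵥ y) = star (Pr i j *ᵥ x) ⬝ᵥ (Pr i j *ᵥ y) := by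
    rw [star_mulVec, Pr_herm, ← dotProduct_mulVec, mulVec_mulVec, Pr_sq]
  rw [e]
  refine (cs_dot _ _).trans ?_
  rw [nr_star]

variable {m : ℕ} {ii jj : ℕ → ι} {R : ℕ → Matrix ι ι ℂ}

/-- The Cauchy-Schwarz inequality for the backward matrices. -/
lemma cs_back (hR : ∀ t < m, Gt (ii t) (jj t) (R t)) {δ : ℝ} (h0 : 0 < δ) (h1 : δ ≤ 1)
    {Q : Matrix ι ι ℂ} {Z : ℕ → Matrix ι ι ℂ} (hZ0 : Z m = 0)
    (hZ : ∀ t < m, Z t = (Ld δ (ii t) (jj t) (R t))ᴴ *
      (Pr (ii t) (jj t) * (Sm δ ii jj R (t + 1) * Q) + Z (t + 1))) (w : ι → ℂ) :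
    ∀ s t, t + s = m → ∀ x : ι → ℂ, ‖star x ⬝ᵥ (Z t *ᵥ w)‖ ≤
      √((1 - δ) ^ 2 / (2 * δ - δ ^ 2) * nr x) *
        √(∑ r ∈ Finset.Ico t m, nr (Pr (ii r) (jj r) *ᵥ ((Sm δ ii jj R (r + 1) * Q) *ᵥ w))) := by
  have hden : 0 < 2 * δ - δ ^ 2 := by nlinarith
  intro s
  induction s with
  | zero =>
    intro t ht x
    have : t = m := by omega
    subst this
    rw [hZ0, zero_mulVec, dotProduct_zero, norm_zero]
    positivity
  | succ s ih =>
    intro t ht x
    have htm : t < m := by omega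
    have h := hR t htm
    have ih' := ih (t + 1) (by omega) (Ld δ (ii t) (jj t) (R t) *ᵥ x)
    rw [Finset.sum_eq_sum_Ico_succ_bot htm]
    set y := Ld δ (ii t) (jj t) (R t) *ᵥ x with hy
    set a := ∑ r ∈ Finset.Ico (t + 1) m,
      nr (Pr (ii r) (jj r) *ᵥ ((Sm δ ii jj R (r + 1) * Q) *ᵥ w)) with ha
    have ha0 : 0 ≤ a := Finset.sum_nonneg fun _ _ => nr_nonneg _
    set κ := (1 - δ) ^ 2 / (2 * δ - δ ^ 2) with hκ
    have hκ0 : 0 ≤ κ := by positivity
    have e1 : star x ⬝ᵥ (Z t *ᵥ w) =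
        star y ⬝ᵥ (Pr (ii t) (jj t) *ᵥ ((Sm δ ii jj R (t + 1) * Q) *ᵥ w)) +
          star y ⬝ᵥ (Z (t + 1) *ᵥ w) := by
      rw [hZ t htm, ← mulVec_mulVec, dotProduct_mulVec, hy, star_mulVec, add_mulVec,
        dotProduct_add, mulVec_mulVec]
    have hk : κ * (2 * δ - δ ^ 2) = (1 - δ) ^ 2 := div_mul_cancel₀ _ hden.ne'
    have h2 : nr (Pr (ii t) (jj t) *ᵥ y) + κ * nr y = κ * nr x := by
      rw [hy, nr_Pr_Ld h, nr_Ld h]
      linear_combination (-nr (Pr (ii t) (jj t) *ᵥ R t *ᵥ x)) * hk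
    calc ‖star x ⬝ᵥ (Z t *ᵥ w)‖ ≤
          ‖star y ⬝ᵥ (Pr (ii t) (jj t) *ᵥ ((Sm δ ii jj R (t + 1) * Q) *ᵥ w))‖ +
          ‖star y ⬝ᵥ (Z (t + 1) *ᵥ w)‖ := by rw [e1]; exact norm_add_le _ _
      _ ≤ √(nr (Pr (ii t) (jj t) *ᵥ y)) *
          √(nr (Pr (ii t) (jj t) *ᵥ ((Sm δ ii jj R (t + 1) * Q) *ᵥ w))) + √(κ * nr y) * √a :=
          add_le_add (pr_pair _ _ _ _) ih'
      _ ≤ √(nr (Pr (ii t) (jj t) *ᵥ y) + κ * nr y) *
          √(nr (Pr (ii t) (jj t) *ᵥ ((Sm δ ii jj R (t + 1) * Q) *ᵥ w)) + a) :=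
          cs2 (nr_nonneg _) (nr_nonneg _) (mul_nonneg hκ0 (nr_nonneg _)) ha0
      _ = _ := by rw [h2]

/-- The rows of the backward matrices. -/
lemma row_back (hR : ∀ t < m, Gt (ii t) (jj t) (R t)) {δ : ℝ} (h0 : 0 < δ) (h1 : δ ≤ 1)
    {Q : Matrix ι ι ℂ} {Z : ℕ → Matrix ι ι ℂ} (hZ0 : Z m = 0)
    (hZ : ∀ t < m, Z t = (Ld δ (ii t) (jj t) (R t))ᴴ *
      (Pr (ii t) (jj t) * (Sm δ ii jj R (t + 1) * Q) + Z (t + 1))) {D : ℝ} (hD : 0 ≤ D)
    (hA : ∀ w : ι → ℂ, ∑ r ∈ Finset.range m,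
      nr (Pr (ii r) (jj r) *ᵥ ((Sm δ ii jj R (r + 1) * Q) *ᵥ w)) ≤ D * nr w)
    {t : ℕ} (ht : t < m) (a : ι) :
    nr ((Pr (ii t) (jj t) * (Sm δ ii jj R (t + 1) * Q) + Z (t + 1)) a) ≤ D / δ := by
  have hden : 0 < 2 * δ - δ ^ 2 := by nlinarith
  set V := Pr (ii t) (jj t) * (Sm δ ii jj R (t + 1) * Q) + Z (t + 1) with hV
  set w : ι → ℂ := star (V a) with hw
  set x : ι → ℂ := Pi.single a 1 with hx
  have hnx : nr x = 1 := by
    unfold nr
    rw [Finset.sum_eq_single a]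
    · rw [hx, Pi.single_eq_same]; simp
    · intro b _ hb
      rw [hx, Pi.single_eq_of_ne hb]
      simp
    · intro h; exact absurd (Finset.mem_univ a) h
  set κ := (1 - δ) ^ 2 / (2 * δ - δ ^ 2) with hκ
  have hκ0 : 0 ≤ κ := by positivity
  have ih' := cs_back hR h0 h1 hZ0 hZ w (m - (t + 1)) (t + 1) (by omega) x
  set b := ∑ r ∈ Finset.Ico (t + 1) m,
    nr (Pr (ii r) (jj r) *ᵥ ((Sm δ ii jj R (r + 1) * Q) *ᵥ w)) with hb
  have hb0 : 0 ≤ b := Finset.sum_nonneg fun _ _ => nr_nonneg _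
  have e1 : star x ⬝ᵥ (V *ᵥ w) = ((nr (V a) : ℝ) : ℂ) := by
    have : star x = x := by
      rw [hx]
      funext k
      rw [Pi.star_apply]
      by_cases hk : k = a
      · rw [hk, Pi.single_eq_same, star_one]
      · rw [Pi.single_eq_of_ne hk, star_zero]
    rw [this, hx, single_one_dotProduct, ← nr_star, nr_eq, star_star]
    rfl
  have e2 : star x ⬝ᵥ (V *ᵥ w) =
      star x ⬝ᵥ (Pr (ii t) (jj t) *ᵥ ((Sm δ ii jj R (t + 1) * Q) *ᵥ w)) +
        star x ⬝ᵥ (Z (t + 1) *ᵥ w) := by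
    rw [hV, add_mulVec, dotProduct_add, mulVec_mulVec]
  have h3 : nr (V a) ≤ √(nr (Pr (ii t) (jj t) *ᵥ x) + κ * nr x) *
      √(nr (Pr (ii t) (jj t) *ᵥ ((Sm δ ii jj R (t + 1) * Q) *ᵥ w)) + b) := by
    have : nr (V a) = ‖star x ⬝ᵥ (V *ᵥ w)‖ := by
      rw [e1, Complex.norm_real, Real.norm_of_nonneg (nr_nonneg _)]
    rw [this, e2]
    refine (norm_add_le _ _).trans ((add_le_add (pr_pair _ _ _ _) ih').trans ?_)
    exact cs2 (nr_nonneg _) (nr_nonneg _) (mul_nonneg hκ0 (nr_nonneg _)) hb0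
  have h4 : nr (Pr (ii t) (jj t) *ᵥ x) + κ * nr x ≤ 1 / δ := by
    have g1 : nr (Pr (ii t) (jj t) *ᵥ x) ≤ 1 := by
      rw [← hnx]
      exact (Con.proj (Pr_herm _ _) (Pr_sq _ _)).1 x
    have hk : κ * (2 * δ - δ ^ 2) = (1 - δ) ^ 2 := div_mul_cancel₀ _ hden.ne'
    rw [hnx, mul_one]
    have g2 : 1 + κ = 1 / (2 * δ - δ ^ 2) := by
      rw [eq_div_iff hden.ne']
      linear_combination hk
    have g3 : 1 / (2 * δ - δ ^ 2) ≤ 1 / δ := one_div_le_one_div_of_le h0 (by nlinarith)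
    linarith
  have h5 : nr (Pr (ii t) (jj t) *ᵥ ((Sm δ ii jj R (t + 1) * Q) *ᵥ w)) + b ≤ D * nr (V a) := by
    rw [hb, ← Finset.sum_eq_sum_Ico_succ_bot ht
      (fun r => nr (Pr (ii r) (jj r) *ᵥ ((Sm δ ii jj R (r + 1) * Q) *ᵥ w)))]
    have g1 : nr w = nr (V a) := nr_star _
    rw [← g1]
    refine le_trans ?_ (hA w)
    refine Finset.sum_le_sum_of_subset_of_nonneg ?_ fun _ _ _ => nr_nonneg _
    intro r hr
    rw [Finset.mem_Ico] at hr
    exact Finset.mem_range.2 hr.2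
  have h6 : nr (V a) ≤ √(1 / δ) * √(D * nr (V a)) :=
    h3.trans (mul_le_mul (Real.sqrt_le_sqrt h4) (Real.sqrt_le_sqrt h5) (Real.sqrt_nonneg _)
      (Real.sqrt_nonneg _))
  have h7 := nr_nonneg (V a)
  have h8 : nr (V a) ^ 2 ≤ 1 / δ * (D * nr (V a)) := by
    have := pow_le_pow_left₀ h7 h6 2
    rw [mul_pow, Real.sq_sqrt (by positivity), Real.sq_sqrt (by positivity)] at this
    exact this
  rcases h7.lt_or_eq with h9 | h9
  · have : nr (V a) * nr (V a) ≤ (D / δ) * nr (V a) := by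
      calc nr (V a) * nr (V a) = nr (V a) ^ 2 := by ring
        _ ≤ 1 / δ * (D * nr (V a)) := h8
        _ = _ := by ring
    exact le_of_mul_le_mul_right this h9
  · rw [← h9]
    positivity

omit [DecidableEq ι] in
/-- Cauchy-Schwarz for the real inner product. -/
lemma ip_le {Y Z : Matrix ι ι ℂ} {v w : ℝ} (hv : ∑ a, nr (Y a) ≤ v) (hw : ∑ a, nr (Z a) ≤ w) :
    ip Y Z ≤ √v * √w := by
  rw [ip_eq]
  have hv0 : 0 ≤ ∑ a, nr (Y a) := Finset.sum_nonneg fun _ _ => nr_nonneg _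
  have hw0 : 0 ≤ ∑ a, nr (Z a) := Finset.sum_nonneg fun _ _ => nr_nonneg _
  calc ∑ k, (star (Y k) ⬝ᵥ Z k).re ≤ ∑ k, √(nr (Y k)) * √(nr (Z k)) := by
        refine Finset.sum_le_sum fun k _ => ?_
        refine (Complex.re_le_norm _).trans ((cs_dot _ _).trans ?_)
        rw [nr_star]
    _ ≤ √(∑ a, nr (Y a)) * √(∑ a, nr (Z a)) := by
        rw [← Real.sqrt_mul hv0]
        refine Real.le_sqrt_of_sq_le ?_
        refine (Finset.sum_mul_sq_le_sq_mul_sq _ _ _).trans (le_of_eq ?_)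
        congr 1
        · exact Finset.sum_congr rfl fun k _ => Real.sq_sqrt (nr_nonneg _)
        · exact Finset.sum_congr rfl fun k _ => Real.sq_sqrt (nr_nonneg _)
    _ ≤ √v * √w := mul_le_mul (Real.sqrt_le_sqrt hv) (Real.sqrt_le_sqrt hw) (Real.sqrt_nonneg _)
        (Real.sqrt_nonneg _)

/-- The operator `A`. -/
def Am (m : ℕ) (δ : ℝ) (ii jj : ℕ → ι) (R : ℕ → Matrix ι ι ℂ) : Matrix ι ι ℂ :=
  ∑ t ∈ Finset.range m, (Sm δ ii jj R (t + 1))ᴴ * (Pr (ii t) (jj t) * Sm δ ii jj R (t + 1))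

/-- **The bound for the hot parts.** -/
lemma psi_sum (hR : ∀ t < m, Gt (ii t) (jj t) (R t)) {δ b : ℝ} (hb : 0 < b) (h0 : 0 < δ)
    (h1 : δ ≤ 1) {Q : Matrix ι ι ℂ} (hQ : Con Q) {D v low : ℝ} (hD : 0 ≤ D)
    (hA : ∀ w : ι → ℂ, ∑ r ∈ Finset.range m,
      nr (Pr (ii r) (jj r) *ᵥ ((Sm δ ii jj R (r + 1) * Q) *ᵥ w)) ≤ D * nr w)
    (hv : ∑ a, nr (Tz b Q a) ≤ v) (hlow : ∑ a, nr ((Am m δ ii jj R * Q) a) ≤ low) :
    ∑ t ∈ Finset.range m, ip (Tz b (Sm δ ii jj R (t + 1) * Q))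
      (Pr (ii t) (jj t) * (Sm δ ii jj R (t + 1) * Q)) ≤
      √v * √low + 36 / b * √(D / δ) * m := by
  obtain ⟨Z, hZ0, hZ⟩ := back (0 : Matrix ι ι ℂ) m (fun t X =>
    (Ld δ (ii t) (jj t) (R t))ᴴ * (Pr (ii t) (jj t) * (Sm δ ii jj R (t + 1) * Q) + X))
  -- telescoping
  have key : ∀ n ≤ m, ∑ t ∈ Finset.range n, ip (Tz b (Sm δ ii jj R (t + 1) * Q))
      (Pr (ii t) (jj t) * (Sm δ ii jj R (t + 1) * Q)) ≤
      ip (Tz b Q) (Z 0) - ip (Tz b (Sm δ ii jj R n * Q)) (Z n) + 36 / b * √(D / δ) * n := by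
    intro n
    induction n with
    | zero =>
      intro _
      have : Sm δ ii jj R 0 * Q = Q := Matrix.one_mul Q
      rw [this]
      simp
    | succ n ih =>
      intro hn
      have ih' := ih (by omega)
      have h := hR n (by omega)
      rw [Finset.sum_range_succ]
      set V := Pr (ii n) (jj n) * (Sm δ ii jj R (n + 1) * Q) + Z (n + 1) with hV
      set L := Ld δ (ii n) (jj n) (R n) with hL
      set Y := Sm δ ii jj R n * Q with hY
      have hYe : Sm δ ii jj R (n + 1) * Q = L * Y := by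
        show Ld δ (ii n) (jj n) (R n) * Sm δ ii jj R n * Q = _
        rw [Matrix.mul_assoc]
      have hYc : Con Y := (Sm_con hR h0.le h1 n (by omega)).mul hQ
      have e1 : ip (Tz b Y) (Z n) = ip (L * Tz b Y) V := by
        rw [hZ n (by omega), ip_mul_left]
      have e2 : ip (Tz b (L * Y)) V = ip (Tz b (L * Y)) (Pr (ii n) (jj n) * (L * Y)) +
          ip (Tz b (L * Y)) (Z (n + 1)) := by
        rw [hV, ip_add, hYe]
      have e3 : ip (Tz b (L * Y)) V - ip (L * Tz b Y) V ≤ 36 / b * √(D / δ) := by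
        have hOn := (h.gl_Ld h0.le h1).err_On b Y
        have g1 : ip (Tz b (L * Y)) V - ip (L * Tz b Y) V =
            ip V (Tz b (L * Y) - L * Tz b Y) := by
          rw [ip_sub, ip_comm V, ip_comm V]
        rw [g1, ip_On h.ne hOn]
        have hrow : ∀ a, a = ii n ∨ a = jj n →
            (star (V a) ⬝ᵥ (Tz b (L * Y) - L * Tz b Y) a).re ≤ 18 / b * √(D / δ) := by
          intro a ha
          refine (Complex.re_le_norm _).trans ((cs_dot _ _).trans ?_)
          rw [nr_star]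
          have g2 : √(nr (V a)) ≤ √(D / δ) :=
            Real.sqrt_le_sqrt (row_back hR h0 h1 hZ0 hZ hD hA (by omega) a)
          have g3 : √(nr ((Tz b (L * Y) - L * Tz b Y) a)) ≤ 18 / b := by
            refine Real.sqrt_le_iff.2 ⟨by positivity, ?_⟩
            refine ((h.gl_Ld h0.le h1).err_nr hb Y ha).trans ?_
            have : (12 / b) ^ 2 * (nr (Y (ii n)) + nr (Y (jj n))) ≤ (12 / b) ^ 2 * (1 + 1) := by
              have := hYc.row (ii n)
              have := hYc.row (jj n)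
              gcongr
            refine this.trans ?_
            rw [div_pow, div_pow, div_mul_eq_mul_div]
            apply div_le_div_of_nonneg_right _ (by positivity)
            norm_num
          calc _ ≤ √(D / δ) * (18 / b) :=
                mul_le_mul g2 g3 (Real.sqrt_nonneg _) (Real.sqrt_nonneg _)
            _ = _ := by ring
        have r1 := hrow (ii n) (Or.inl rfl)
        have r2 := hrow (jj n) (Or.inr rfl)
        calc _ ≤ 18 / b * √(D / δ) + 18 / b * √(D / δ) := add_le_add r1 r2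
          _ = _ := by ring
      rw [hYe]
      push_cast
      rw [hYe] at hV
      linarith
  have h2 := key m le_rfl
  rw [hZ0, ip_zero_right, sub_zero] at h2
  -- the value of `Z 0`
  have key2 : ∀ n ≤ m, Z 0 = (∑ t ∈ Finset.range n, (Sm δ ii jj R (t + 1))ᴴ *
      (Pr (ii t) (jj t) * Sm δ ii jj R (t + 1))) * Q + (Sm δ ii jj R n)ᴴ * Z n := by
    intro n
    induction n with
    | zero =>
      intro _
      have : (Sm δ ii jj R 0)ᴴ = 1 := conjTranspose_one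
      rw [this]
      simp
    | succ n ih =>
      intro hn
      have ih' := ih (by omega)
      rw [ih', Finset.sum_range_succ, hZ n (by omega), add_mul, add_assoc]
      congr 1
      have : Sm δ ii jj R (n + 1) = Ld δ (ii n) (jj n) (R n) * Sm δ ii jj R n := rfl
      rw [← Matrix.mul_assoc, ← conjTranspose_mul, ← this, mul_add]
      simp only [Matrix.mul_assoc]
  have h3 := key2 m le_rfl
  rw [hZ0, Matrix.mul_zero, add_zero] at h3
  have h4 : ip (Tz b Q) (Z 0) ≤ √v * √low := by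
    rw [h3]
    exact ip_le hv hlow
  linarith

/-- Each term dominates the hot parts. -/
lemma psi_term {i j : ι} (hij : i ≠ j) (b : ℝ) (Y : Matrix ι ι ℂ) :
    nr (Tz b Y i) + nr (Tz b Y j) ≤ ip (Tz b Y) (Pr i j * Y) := by
  rw [ip_On hij (Pr_On i j Y)]
  have hrow : ∀ a, a = i ∨ a = j →
      nr (Tz b Y a) ≤ (star (Tz b Y a) ⬝ᵥ (Pr i j * Y) a).re := by
    intro a ha
    have e : (Pr i j * Y) a = Y a := by
      funext l
      rw [Pr_mul, if_pos ha]
    rw [e]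
    unfold nr dotProduct
    rw [Complex.re_sum]
    refine Finset.sum_le_sum fun l _ => ?_
    rw [Pi.star_apply, Tz_apply]
    unfold tz
    set τ := th b (‖Y a l‖ ^ 2) with hτ
    have h0 : 0 ≤ τ := th_nonneg _ _
    have h1 : τ ≤ 1 := th_le_one _ _
    have e2 : star ((τ : ℂ) * Y a l) * Y a l = ((τ * ‖Y a l‖ ^ 2 : ℝ) : ℂ) := by
      rw [Complex.star_def, map_mul, Complex.conj_ofReal, mul_assoc, Complex.conj_mul']
      push_cast
      ring
    rw [e2, Complex.ofReal_re, norm_mul, Complex.norm_real, Real.norm_of_nonneg h0, mul_pow]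
    have : τ ^ 2 ≤ τ := by nlinarith
    exact mul_le_mul_of_nonneg_right this (by positivity)
  exact add_le_add (hrow i (Or.inl rfl)) (hrow j (Or.inr rfl))

/-- **The main inequality.** -/
theorem core (hR : ∀ t < m, Gt (ii t) (jj t) (R t)) {δ b α : ℝ} (hb : 0 < b) (h0 : 0 < δ)
    (h1 : δ ≤ 1 / 2) {Q G : Matrix ι ι ℂ} (hQh : Qᴴ = Q) (hQ : Con Q) {D v low : ℝ} (hD : 0 ≤ D)
    (hA : ∀ w : ι → ℂ, ∑ r ∈ Finset.range m,
      nr (Pr (ii r) (jj r) *ᵥ ((Sm δ ii jj R (r + 1) * Q) *ᵥ w)) ≤ D * nr w)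
    (hv : ∑ a, nr (Tz b Q a) ≤ v) (hlow : ∑ a, nr ((Am m δ ii jj R * Q) a) ≤ low)
    (hG1 : Gᴴ = -G) (hG2 : G * G = -1) (hG3 : ∀ k l, ‖G k l‖ ≤ Real.exp (-(3 * b / 2)))
    (hG4 : ∀ k, G k k = 0) (hX : Wm R m = ((Real.cos α : ℝ) : ℂ) • (1 : Matrix ι ι ℂ) +
      ((Real.sin α : ℝ) : ℂ) • G) (hα : 0 ≤ Real.sin α)
    (hcos : Real.exp (-(b / 2)) ≤ Real.cos α ^ 2) :
    Real.sin α * ((trace (Wm R m * Q)).re - 2 * δ * m) ≤
      m * (2 * δ + 96 / b * Real.exp (-(b / 2))) +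
        36 / b * √(2 * m * (√v * √low + 36 / b * √(D / δ) * m)) := by
  have hGG : Gᴴ * G = 1 := by rw [hG1, Matrix.neg_mul, hG2, neg_neg]
  have hGG' : G * Gᴴ = 1 := by rw [hG1, Matrix.mul_neg, hG2, neg_neg]
  have hGc : Con G := Con.unitary hGG hGG'
  set F : ℕ → ℝ := fun t => ip (Sm δ ii jj R t * Q * G) (Tz b (Wm R t)) with hF
  set H : ℕ → Matrix ι ι ℂ := fun t => Tz b (Sm δ ii jj R t * Q) with hH
  have hexp1 : Real.exp (-(b / 2)) ≤ 1 := Real.exp_le_one_iff.2 (by linarith)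
  -- the initial value
  have hF0 : F 0 = 0 := by
    have : Tz b (Wm R 0) = 0 := by
      ext k l
      rw [Tz_apply, Matrix.zero_apply]
      show tz b ((1 : Matrix ι ι ℂ) k l) = 0
      by_cases hkl : k = l
      · rw [hkl, Matrix.one_apply_eq]
        refine tz_big hb ?_
        simpa using hexp1
      · rw [Matrix.one_apply_ne hkl]
        unfold tz
        simp
    rw [hF]
    show ip _ (Tz b (Wm R 0)) = 0
    rw [this, ip_zero_right]
  -- the final value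
  have hFm : F m = Real.sin α * (trace (Sm δ ii jj R m * Q)).re := by
    have e1 : Tz b (Wm R m) = ((Real.sin α : ℝ) : ℂ) • G := by
      ext k l
      rw [Tz_apply, hX, Matrix.add_apply, Matrix.smul_apply, Matrix.smul_apply, smul_eq_mul,
        smul_eq_mul]
      by_cases hkl : k = l
      · rw [hkl, Matrix.one_apply_eq, hG4, mul_zero, add_zero, mul_one]
        refine tz_big hb ?_
        rw [Complex.norm_real, Real.norm_eq_abs, sq_abs]
        exact hcos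
      · rw [Matrix.one_apply_ne hkl, mul_zero, zero_add]
        refine tz_small hb ?_
        rw [norm_mul, Complex.norm_real, mul_pow]
        have g1 : ‖Real.sin α‖ ^ 2 ≤ 1 := by
          rw [Real.norm_eq_abs, sq_abs]
          exact Real.sin_sq_le_one α
        have g2 : ‖G k l‖ ^ 2 ≤ Real.exp (-b) := by
          calc ‖G k l‖ ^ 2 ≤ Real.exp (-(3 * b / 2)) ^ 2 := by
                have := hG3 k l
                gcongr
            _ = Real.exp (-(3 * b)) := by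
                rw [← Real.exp_nat_mul]; congr 1; push_cast; ring
            _ ≤ Real.exp (-b) := Real.exp_le_exp.2 (by linarith)
        calc ‖Real.sin α‖ ^ 2 * ‖G k l‖ ^ 2 ≤ 1 * Real.exp (-b) := by gcongr
          _ = _ := one_mul _
    rw [hF]
    show ip (Sm δ ii jj R m * Q * G) (Tz b (Wm R m)) = _
    rw [e1]
    unfold ip
    rw [mul_smul_comm, trace_smul, smul_eq_mul, Complex.re_ofReal_mul, conjTranspose_mul,
      Matrix.mul_assoc, trace_mul_comm, Matrix.mul_assoc, hGG', Matrix.mul_one,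
      trace_conjTranspose, Complex.star_def, Complex.conj_re]
  -- increments
  have hinc : ∀ n ≤ m, F n ≤ n * (2 * δ + 96 / b * Real.exp (-(b / 2))) +
      36 / b * ∑ t ∈ Finset.range n, (√(nr (H (t + 1) (ii t))) + √(nr (H (t + 1) (jj t)))) := by
    intro n
    induction n with
    | zero => intro _; rw [hF0]; simp
    | succ n ih =>
      intro hn
      have ih' := ih (by omega)
      have h2 := inc (hR n (by omega)) hb h0.le h1 (Sm_con hR h0.le (by linarith) n (by omega))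
        (Wm_con hR n (by omega)) hQ hGc hG3
      rw [Finset.sum_range_succ]
      have e1 : F (n + 1) = ip (Ld δ (ii n) (jj n) (R n) * Sm δ ii jj R n * Q * G)
          (Tz b (R n * Wm R n)) := rfl
      have e2 : F n = ip (Sm δ ii jj R n * Q * G) (Tz b (Wm R n)) := rfl
      have e3 : H (n + 1) = Tz b (Ld δ (ii n) (jj n) (R n) * Sm δ ii jj R n * Q) := rfl
      rw [← e1, ← e2, ← e3] at h2
      push_cast
      rw [mul_add (36 / b)]
      linarith
  -- the sum of the hot parts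
  set Sg := ∑ t ∈ Finset.range m, (√(nr (H (t + 1) (ii t))) + √(nr (H (t + 1) (jj t)))) with hSg
  have hsum : Sg ≤ √(2 * m * (√v * √low + 36 / b * √(D / δ) * m)) := by
    refine Real.le_sqrt_of_sq_le ?_
    have g1 : Sg ^ 2 ≤ m * ∑ t ∈ Finset.range m,
        (√(nr (H (t + 1) (ii t))) + √(nr (H (t + 1) (jj t)))) ^ 2 := by
      have := Finset.sum_mul_sq_le_sq_mul_sq (Finset.range m) (fun _ => (1 : ℝ))
        (fun t => √(nr (H (t + 1) (ii t))) + √(nr (H (t + 1) (jj t))))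
      simp only [one_mul, one_pow, Finset.sum_const, Finset.card_range, nsmul_eq_mul,
        mul_one] at this
      exact this
    have g2 : ∑ t ∈ Finset.range m,
        (√(nr (H (t + 1) (ii t))) + √(nr (H (t + 1) (jj t)))) ^ 2 ≤
        2 * ∑ t ∈ Finset.range m, ip (Tz b (Sm δ ii jj R (t + 1) * Q))
          (Pr (ii t) (jj t) * (Sm δ ii jj R (t + 1) * Q)) := by
      rw [Finset.mul_sum]
      refine Finset.sum_le_sum fun t ht => ?_
      have g3 := psi_term (hR t (Finset.mem_range.1 ht)).ne b (Sm δ ii jj R (t + 1) * Q)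
      have g4 := Real.sq_sqrt (nr_nonneg (H (t + 1) (ii t)))
      have g5 := Real.sq_sqrt (nr_nonneg (H (t + 1) (jj t)))
      have g6 : H (t + 1) = Tz b (Sm δ ii jj R (t + 1) * Q) := rfl
      rw [← g6] at g3
      nlinarith [sq_nonneg (√(nr (H (t + 1) (ii t))) - √(nr (H (t + 1) (jj t))))]
    have g7 := psi_sum hR hb h0 (by linarith) hQ hD hA hv hlow
    calc Sg ^ 2 ≤ m * (2 * ∑ t ∈ Finset.range m, ip (Tz b (Sm δ ii jj R (t + 1) * Q))
          (Pr (ii t) (jj t) * (Sm δ ii jj R (t + 1) * Q))) :=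
          g1.trans (mul_le_mul_of_nonneg_left g2 (Nat.cast_nonneg m))
      _ ≤ m * (2 * (√v * √low + 36 / b * √(D / δ) * m)) := by gcongr
      _ = _ := by ring
  have h2 := hinc m le_rfl
  rw [hFm] at h2
  have h3 := tr_Sm hR h0.le (by linarith) hQ
  calc Real.sin α * ((trace (Wm R m * Q)).re - 2 * δ * m) ≤
        Real.sin α * (trace (Sm δ ii jj R m * Q)).re := mul_le_mul_of_nonneg_left h3 hα
    _ ≤ _ := h2
    _ ≤ _ := by
        have : 36 / b * Sg ≤ 36 / b * √(2 * m * (√v * √low + 36 / b * √(D / δ) * m)) :=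
          mul_le_mul_of_nonneg_left hsum (by positivity)
        linarith

end

end Pool.Agent.V8H59.RF
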