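import Pool.Agent.V8H59.RF.Psi

set_option autoImplicit false

/-!
The spectral projections and the choice of the threshold.
-/

open Matrix
open scoped ComplexOrder

namespace Pool.Agent.V8H59.RF

noncomputable section

variable {ι : Type*} [Fintype ι] [DecidableEq ι]

/-- Diagonalization. -/
lemma diag_ex {A : Matrix ι ι ℂ} (hA : A.IsHermitian) :
    ∃ U : Matrix ι ι ℂ, Uᴴ * U = 1 ∧ U * Uᴴ = 1 ∧
      A = U * diagonal (fun k => ((hA.eigenvalues k : ℝ) : ℂ)) * Uᴴ := by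
  refine ⟨(hA.eigenvectorUnitary : Matrix ι ι ℂ), ?_, ?_, ?_⟩
  · rw [← star_eq_conjTranspose]
    exact Unitary.coe_star_mul_self _
  · rw [← star_eq_conjTranspose]
    exact Unitary.coe_mul_star_self _
  · conv_lhs => rw [hA.spectral_theorem, Unitary.conjStarAlgAut_apply]
    rfl

/-- The truncated identity in an orthonormal basis. -/
def Qd (U : Matrix ι ι ℂ) (χ : ι → ℝ) : Matrix ι ι ℂ :=
  U * diagonal (fun k => ((χ k : ℝ) : ℂ)) * Uᴴ

lemma Qd_mul {U : Matrix ι ι ℂ} (h1 : Uᴴ * U = 1) (χ χ' : ι → ℝ) :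
    Qd U χ * Qd U χ' = Qd U (fun k => χ k * χ' k) := by
  unfold Qd
  have : U * diagonal (fun k => ((χ k : ℝ) : ℂ)) * Uᴴ *
      (U * diagonal (fun k => ((χ' k : ℝ) : ℂ)) * Uᴴ) =
      U * diagonal (fun k => ((χ k : ℝ) : ℂ)) * (Uᴴ * U) *
        (diagonal (fun k => ((χ' k : ℝ) : ℂ)) * Uᴴ) := by
    simp only [Matrix.mul_assoc]
  rw [this, h1, Matrix.mul_one, ← Matrix.mul_assoc, Matrix.mul_assoc U, diagonal_mul_diagonal]
  congr 3
  funext k
  push_cast
  rfl

lemma Qd_herm (U : Matrix ι ι ℂ) (χ : ι → ℝ) : (Qd U χ)ᴴ = Qd U χ := by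
  unfold Qd
  rw [conjTranspose_mul, conjTranspose_mul, conjTranspose_conjTranspose, diagonal_conjTranspose,
    Matrix.mul_assoc]
  congr 3
  funext k
  rw [Pi.star_apply, Complex.star_def, Complex.conj_ofReal]

lemma Qd_trace {U : Matrix ι ι ℂ} (h1 : Uᴴ * U = 1) (χ : ι → ℝ) :
    trace (Qd U χ) = ((∑ k, χ k : ℝ) : ℂ) := by
  unfold Qd
  rw [trace_mul_comm, ← Matrix.mul_assoc, h1, Matrix.one_mul, trace_diagonal]
  push_cast
  rfl

lemma Qd_one {U : Matrix ι ι ℂ} (h2 : U * Uᴴ = 1) : Qd U (fun _ => 1) = 1 := by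
  unfold Qd
  have : (diagonal (fun _ : ι => (((1 : ℝ)) : ℂ))) = 1 := by
    rw [Complex.ofReal_one]
    exact diagonal_one
  rw [this, Matrix.mul_one, h2]

lemma Qd_sub (U : Matrix ι ι ℂ) (χ χ' : ι → ℝ) :
    Qd U χ - Qd U χ' = Qd U (fun k => χ k - χ' k) := by
  unfold Qd
  rw [← sub_mul, ← mul_sub, diagonal_sub]
  congr 3
  funext k
  push_cast
  rfl

omit [DecidableEq ι] in
/-- The Frobenius norm. -/
lemma frob (Y : Matrix ι ι ℂ) : ((∑ a, nr (Y a) : ℝ) : ℂ) = trace (Y * Yᴴ) := by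
  unfold nr trace
  push_cast
  refine Finset.sum_congr rfl fun a _ => ?_
  rw [Matrix.diag_apply, Matrix.mul_apply]
  refine Finset.sum_congr rfl fun l _ => ?_
  rw [conjTranspose_apply, Complex.star_def, Complex.mul_conj']

lemma Qd_frob {U : Matrix ι ι ℂ} (h1 : Uᴴ * U = 1) (χ : ι → ℝ) :
    ∑ a, nr (Qd U χ a) = ∑ k, χ k * χ k := by
  have h := frob (Qd U χ)
  rw [Qd_herm, Qd_mul h1, Qd_trace h1] at h
  exact_mod_cast h

lemma Con.conjT {M : Matrix ι ι ℂ} (h : Con M) : Con Mᴴ := by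
  constructor
  · intro x
    have h1 := h.2 (star x)
    rw [nr_vecMul, star_star, nr_star] at h1
    exact h1
  · intro x
    rw [nr_vecMul, conjTranspose_conjTranspose, ← nr_star x]
    exact h.1 _

/-- The trace against a projection. -/
lemma tr_proj {U X : Matrix ι ι ℂ} (h1 : Uᴴ * U = 1) (h2 : U * Uᴴ = 1) (hX : Con X) {χ : ι → ℝ}
    (h0 : ∀ k, 0 ≤ χ k) : (trace (X * Qd U χ)).re ≤ ∑ k, χ k := by
  have e : trace (X * Qd U χ) = trace (diagonal (fun k => ((χ k : ℝ) : ℂ)) * (Uᴴ * X * U)) := by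
    unfold Qd
    rw [← Matrix.mul_assoc, ← Matrix.mul_assoc, trace_mul_comm, ← Matrix.mul_assoc,
      ← Matrix.mul_assoc, ← Matrix.mul_assoc, trace_mul_comm]
    simp only [Matrix.mul_assoc]
  have hc : Con (Uᴴ * X * U) := by
    have hU := Con.unitary h1 h2
    exact (hU.conjT.mul hX).mul hU
  rw [e]
  unfold trace
  rw [Complex.re_sum]
  refine Finset.sum_le_sum fun k _ => ?_
  rw [Matrix.diag_apply, diagonal_mul, Complex.re_ofReal_mul]
  have h3 := (Complex.re_le_norm _).trans (hc.diag k)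
  calc χ k * ((Uᴴ * X * U) k k).re ≤ χ k * 1 := mul_le_mul_of_nonneg_left h3 (h0 k)
    _ = χ k := mul_one _

/-- The truncation of a projection close to the identity. -/
lemma Tz_proj {b : ℝ} (hb : 0 < b) (hb4 : Real.exp (-(b / 2)) ≤ 1 / 4) {Q : Matrix ι ι ℂ}
    (h1 : Qᴴ = Q) (h2 : Q * Q = Q) : ∑ a, nr (Tz b Q a) ≤ (trace (1 - Q)).re := by
  have hrow : ∀ a, nr (Tz b Q a) ≤ 1 - (Q a a).re := by
    intro a
    have e1 : ((nr (Q a) : ℝ) : ℂ) = Q a a := by
      have : Q a a = (Q * Qᴴ) a a := by rw [h1, h2]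
      rw [this, Matrix.mul_apply]
      unfold nr
      push_cast
      refine Finset.sum_congr rfl fun l _ => ?_
      rw [conjTranspose_apply, Complex.star_def, Complex.mul_conj']
    have e2 : (Q a a).re = nr (Q a) := by rw [← e1, Complex.ofReal_re]
    have e3 : ‖Q a a‖ = nr (Q a) := by
      rw [← e1, Complex.norm_real, Real.norm_of_nonneg (nr_nonneg _)]
    set q := nr (Q a) with hq
    have hq0 : 0 ≤ q := nr_nonneg _
    have hq1 : q ≤ 1 := (Con.proj h1 h2).row a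
    rw [e2]
    have e4 : q = ‖Q a a‖ ^ 2 + ∑ l ∈ Finset.univ.erase a, ‖Q a l‖ ^ 2 :=
      (Finset.add_sum_erase _ _ (Finset.mem_univ a)).symm
    have e5 : nr (Tz b Q a) = ‖tz b (Q a a)‖ ^ 2 + ∑ l ∈ Finset.univ.erase a, ‖tz b (Q a l)‖ ^ 2 :=
      (Finset.add_sum_erase _ _ (Finset.mem_univ a)).symm
    have e6 : ∑ l ∈ Finset.univ.erase a, ‖tz b (Q a l)‖ ^ 2 ≤
        ∑ l ∈ Finset.univ.erase a, ‖Q a l‖ ^ 2 := Finset.sum_le_sum fun l _ => by
      have := norm_tz_le b (Q a l)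
      gcongr
    rw [e3] at e4
    rw [e5]
    by_cases hc : Real.exp (-(b / 2)) ≤ ‖Q a a‖ ^ 2
    · rw [tz_big hb hc, norm_zero]
      nlinarith
    · push Not at hc
      rw [e3] at hc
      have h3 : ‖tz b (Q a a)‖ ^ 2 ≤ q ^ 2 := by
        have := norm_tz_le b (Q a a)
        rw [e3] at this
        gcongr
      nlinarith
  refine (Finset.sum_le_sum fun a _ => hrow a).trans (le_of_eq ?_)
  unfold trace
  rw [Complex.re_sum]
  refine Finset.sum_congr rfl fun a _ => ?_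
  rw [Matrix.diag_apply, Matrix.sub_apply, Matrix.one_apply_eq, Complex.sub_re, Complex.one_re]

/-! ### The dyadic pigeonhole -/

/-- The contribution of one eigenvalue. -/
def gd (D μ : ℝ) : ℝ := if D ≤ μ then D else μ ^ 2 / D

lemma gd_sum {μ : ℝ} (hμ : 0 ≤ μ) (n : ℕ) : ∀ D : ℝ, 0 < D →
    (D ≤ μ → ∑ j ∈ Finset.range n, gd (2 ^ j * D) μ ≤ 4 * μ - D) ∧
    (μ < D → ∑ j ∈ Finset.range n, gd (2 ^ j * D) μ ≤ 2 * μ ^ 2 / D) := by
  induction n with
  | zero =>
    intro D hD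
    constructor
    · intro h; simp; linarith
    · intro h; simp; positivity
  | succ n ih =>
    intro D hD
    obtain ⟨h1, h2⟩ := ih (2 * D) (by linarith)
    have e : ∑ j ∈ Finset.range (n + 1), gd (2 ^ j * D) μ =
        gd D μ + ∑ j ∈ Finset.range n, gd (2 ^ j * (2 * D)) μ := by
      rw [Finset.sum_range_succ', add_comm]
      congr 1
      · simp
      · refine Finset.sum_congr rfl fun j _ => ?_
        congr 1
        ring
    rw [e]
    constructor
    · intro h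
      have g1 : gd D μ = D := if_pos h
      rw [g1]
      rcases le_or_gt (2 * D) μ with h3 | h3
      · have := h1 h3
        linarith
      · have := h2 h3
        have g2 : 2 * μ ^ 2 / (2 * D) ≤ 4 * μ - 2 * D := by
          rw [div_le_iff₀ (by linarith)]
          nlinarith
        linarith
    · intro h
      have g1 : gd D μ = μ ^ 2 / D := if_neg (not_le.2 h)
      have := h2 (by linarith)
      rw [g1]
      have g2 : 2 * μ ^ 2 / (2 * D) = μ ^ 2 / D := by
        field_simp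
      have g3 : 2 * μ ^ 2 / D = μ ^ 2 / D + μ ^ 2 / D := by ring
      rw [g3]
      linarith

lemma gd_le {μ D : ℝ} (hμ : 0 ≤ μ) (hD : 0 < D) (n : ℕ) :
    ∑ j ∈ Finset.range n, gd (2 ^ j * D) μ ≤ 4 * μ := by
  obtain ⟨h1, h2⟩ := gd_sum hμ n D hD
  rcases le_or_gt D μ with h | h
  · have := h1 h
    linarith
  · refine (h2 h).trans ?_
    rw [div_le_iff₀ hD]
    nlinarith

variable {m : ℕ} {ii jj : ℕ → ι} {R : ℕ → Matrix ι ι ℂ}

lemma Am_herm (δ : ℝ) : (Am m δ ii jj R).PosSemidef := by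
  unfold Am
  refine posSemidef_sum _ fun t _ => ?_
  have : (Sm δ ii jj R (t + 1))ᴴ * (Pr (ii t) (jj t) * Sm δ ii jj R (t + 1)) =
      (Pr (ii t) (jj t) * Sm δ ii jj R (t + 1))ᴴ * (Pr (ii t) (jj t) * Sm δ ii jj R (t + 1)) := by
    rw [conjTranspose_mul, Pr_herm, Matrix.mul_assoc, ← Matrix.mul_assoc (Pr _ _) (Pr _ _), Pr_sq]
  rw [this]
  exact posSemidef_conjTranspose_mul_self _

/-- The quadratic form of `A`. -/
lemma Am_form (δ : ℝ) (y : ι → ℂ) : ((∑ t ∈ Finset.range m,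
    nr (Pr (ii t) (jj t) *ᵥ (Sm δ ii jj R (t + 1) *ᵥ y)) : ℝ) : ℂ) =
      star y ⬝ᵥ (Am m δ ii jj R *ᵥ y) := by
  unfold Am
  rw [Matrix.sum_mulVec, dotProduct_sum]
  push_cast
  refine Finset.sum_congr rfl fun t _ => ?_
  rw [mulVec_mulVec, nr_mulVec, conjTranspose_mul, Pr_herm, Matrix.mul_assoc,
    ← Matrix.mul_assoc (Pr _ _) (Pr _ _), Pr_sq]

lemma Am_trace (hR : ∀ t < m, Gt (ii t) (jj t) (R t)) {δ : ℝ} (h0 : 0 ≤ δ) (h1 : δ ≤ 1) :
    (trace (Am m δ ii jj R)).re ≤ 2 * m := by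
  unfold Am
  rw [trace_sum, Complex.re_sum]
  refine (Finset.sum_le_sum (g := fun _ => (2 : ℝ)) fun t ht => ?_).trans (le_of_eq ?_)
  · have htm := Finset.mem_range.1 ht
    have hS := Sm_con hR h0 h1 (t + 1) (by omega)
    have e : trace ((Sm δ ii jj R (t + 1))ᴴ * (Pr (ii t) (jj t) * Sm δ ii jj R (t + 1))) =
        trace (Pr (ii t) (jj t) * (Sm δ ii jj R (t + 1) * (Sm δ ii jj R (t + 1))ᴴ)) := by
      rw [trace_mul_comm, Matrix.mul_assoc]
    rw [e]
    exact (abs_le.1 (tr_Pr_le (hR t htm).ne (hS.mul hS.conjT))).2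
  · rw [Finset.sum_const, Finset.card_range, nsmul_eq_mul]
    ring

/-- **The main inequality with the choice of the threshold.** -/
theorem core2 (hR : ∀ t < m, Gt (ii t) (jj t) (R t)) {δ b α : ℝ} (hb : 0 < b) (h0 : 0 < δ)
    (h1 : δ ≤ 1 / 2) (hb4 : Real.exp (-(b / 2)) ≤ 1 / 4) {G : Matrix ι ι ℂ}
    (hG1 : Gᴴ = -G) (hG2 : G * G = -1) (hG3 : ∀ k l, ‖G k l‖ ≤ Real.exp (-(3 * b / 2)))
    (hG4 : ∀ k, G k k = 0) (hX : Wm R m = ((Real.cos α : ℝ) : ℂ) • (1 : Matrix ι ι ℂ) +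
      ((Real.sin α : ℝ) : ℂ) • G) (hα : 0 ≤ Real.sin α)
    (hcos : Real.exp (-(b / 2)) ≤ Real.cos α ^ 2) {r : ℕ} (hr : 1 ≤ r) {D0 : ℝ} (hD0 : 0 < D0) :
    Real.sin α * (Fintype.card ι * Real.cos α - 8 * m / (r * D0) - 2 * δ * m) ≤
      m * (2 * δ + 96 / b * Real.exp (-(b / 2))) +
        36 / b * √(2 * m * (4 * m / r + 36 / b * √(2 ^ r * D0 / δ) * m)) := by
  classical
  set A := Am m δ ii jj R with hAd
  have hA : A.IsHermitian := (Am_herm δ).1
  have hpos : ∀ k, 0 ≤ hA.eigenvalues k := fun k => (Am_herm δ).eigenvalues_nonneg k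
  obtain ⟨U, hU1, hU2, hAU⟩ := diag_ex hA
  set μ := hA.eigenvalues with hμ
  have hAQ : A = Qd U μ := hAU
  have hsum : ∑ k, μ k ≤ 2 * m := by
    have h2 := Am_trace hR h0.le (by linarith : δ ≤ 1)
    rw [← hAd, hAQ, Qd_trace hU1, Complex.ofReal_re] at h2
    exact h2
  -- the choice of the threshold
  have hpig : ∃ j ∈ Finset.range r, ∑ k, gd (2 ^ j * D0) (μ k) ≤ 8 * m / r := by
    by_contra hc
    push Not at hc
    have h2 : ∑ j ∈ Finset.range r, (8 * (m : ℝ) / r) <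
        ∑ j ∈ Finset.range r, ∑ k, gd (2 ^ j * D0) (μ k) :=
      Finset.sum_lt_sum_of_nonempty ⟨0, Finset.mem_range.2 (by omega)⟩ hc
    rw [Finset.sum_comm, Finset.sum_const, Finset.card_range, nsmul_eq_mul] at h2
    have h3 : ∑ k, ∑ j ∈ Finset.range r, gd (2 ^ j * D0) (μ k) ≤ ∑ k, 4 * μ k :=
      Finset.sum_le_sum fun k _ => gd_le (hpos k) hD0 r
    rw [← Finset.mul_sum] at h3
    have hr0 : (r : ℝ) ≠ 0 := by positivity
    have h4 : (r : ℝ) * (8 * m / r) = 8 * m := by field_simp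
    rw [h4] at h2
    linarith
  obtain ⟨j, hj, hsumj⟩ := hpig
  have hjr := Finset.mem_range.1 hj
  set D := 2 ^ j * D0 with hD
  have hDpos : 0 < D := by positivity
  have hDle : D ≤ 2 ^ r * D0 := by
    rw [hD]
    have : (2 : ℝ) ^ j ≤ 2 ^ r := pow_le_pow_right₀ (by norm_num) hjr.le
    gcongr
  have hDge : D0 ≤ D := by
    rw [hD]
    have : (1 : ℝ) ≤ 2 ^ j := one_le_pow₀ (by norm_num)
    nlinarith
  set χ : ι → ℝ := fun k => if μ k < D then 1 else 0 with hχ
  set Q := Qd U χ with hQd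
  have hχχ : (fun k => χ k * χ k) = χ := by
    funext k
    rw [hχ]
    dsimp only
    split_ifs <;> simp
  have hQh : Qᴴ = Q := Qd_herm U χ
  have hQQ : Q * Q = Q := by rw [hQd, Qd_mul hU1, hχχ]
  have hQc : Con Q := Con.proj hQh hQQ
  set v := ∑ k, (1 - χ k) with hv
  set low := ∑ k, (μ k * χ k) * (μ k * χ k) with hlow
  have hvl : v * D + low / D ≤ 8 * m / r := by
    refine le_trans (le_of_eq ?_) hsumj
    rw [hv, hlow, Finset.sum_mul, Finset.sum_div, ← Finset.sum_add_distrib]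
    refine Finset.sum_congr rfl fun k _ => ?_
    rw [hχ]
    unfold gd
    dsimp only
    split_ifs with g1 g2
    · exact absurd g1 (not_lt.2 g2)
    · field_simp; ring
    · ring
    · exact absurd (not_lt.1 g1) ‹_›
  have hv0 : 0 ≤ v := Finset.sum_nonneg fun k _ => by
    rw [hχ]; dsimp only; split_ifs <;> norm_num
  have hlow0 : 0 ≤ low := Finset.sum_nonneg fun k _ => mul_self_nonneg _
  -- the form bound
  have hform : ∀ w : ι → ℂ, ∑ t ∈ Finset.range m,
      nr (Pr (ii t) (jj t) *ᵥ ((Sm δ ii jj R (t + 1) * Q) *ᵥ w)) ≤ D * nr w := by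
    intro w
    have e0 : ∀ t, Pr (ii t) (jj t) *ᵥ ((Sm δ ii jj R (t + 1) * Q) *ᵥ w) =
        Pr (ii t) (jj t) *ᵥ (Sm δ ii jj R (t + 1) *ᵥ (Q *ᵥ w)) := by
      intro t
      rw [← mulVec_mulVec w (Sm δ ii jj R (t + 1)) Q]
    simp only [e0]
    have h2 := Am_form (m := m) (ii := ii) (jj := jj) (R := R) δ (Q *ᵥ w)
    rw [← hAd] at h2
    set y := Uᴴ *ᵥ w with hy
    have e1 : star (Q *ᵥ w) ⬝ᵥ (A *ᵥ (Q *ᵥ w)) =
        ((∑ k, μ k * χ k * ‖y k‖ ^ 2 : ℝ) : ℂ) := by
      have g1 : star (Q *ᵥ w) ⬝ᵥ (A *ᵥ (Q *ᵥ w)) = star w ⬝ᵥ ((Q * (A * Q)) *ᵥ w) := by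
        rw [star_mulVec, hQh, ← dotProduct_mulVec, mulVec_mulVec, mulVec_mulVec, Matrix.mul_assoc]
      have g2 : Q * (A * Q) = Qd U (fun k => μ k * χ k) := by
        rw [hAQ, hQd, Qd_mul hU1, Qd_mul hU1]
        congr 1
        funext k
        rw [hχ]
        dsimp only
        split_ifs <;> ring
      rw [g1, g2]
      unfold Qd
      rw [← mulVec_mulVec, ← mulVec_mulVec, ← hy, dotProduct_mulVec]
      have g3 : star w ᵥ* U = star y := by
        rw [hy, star_mulVec, conjTranspose_conjTranspose]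
      rw [g3]
      unfold dotProduct
      push_cast
      refine Finset.sum_congr rfl fun k _ => ?_
      rw [mulVec_diagonal, Pi.star_apply, Complex.star_def, ← Complex.conj_mul']
      ring
    rw [e1] at h2
    have h3 : ∑ t ∈ Finset.range m, nr (Pr (ii t) (jj t) *ᵥ (Sm δ ii jj R (t + 1) *ᵥ (Q *ᵥ w))) =
        ∑ k, μ k * χ k * ‖y k‖ ^ 2 := by exact_mod_cast h2
    rw [h3]
    have h4 : nr w = nr y := by
      rw [hy, nr_unitary]
      rw [conjTranspose_conjTranspose]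
      exact hU2
    rw [h4]
    unfold nr
    rw [Finset.mul_sum]
    refine Finset.sum_le_sum fun k _ => ?_
    refine mul_le_mul_of_nonneg_right ?_ (by positivity)
    rw [hχ]
    dsimp only
    split_ifs with g1
    · linarith
    · linarith
  have hvv : ∑ a, nr (Tz b Q a) ≤ v := by
    refine (Tz_proj hb hb4 hQh hQQ).trans (le_of_eq ?_)
    have : (1 : Matrix ι ι ℂ) - Q = Qd U (fun k => 1 - χ k) := by
      rw [← Qd_one hU2, hQd, Qd_sub]
    rw [this, Qd_trace hU1, Complex.ofReal_re]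
  have hll : ∑ a, nr ((A * Q) a) ≤ low := by
    rw [hAQ, hQd, Qd_mul hU1, Qd_frob hU1]
  have hcore := core (low := low) hR hb h0 h1 hQh hQc hDpos.le hform hvv hll
    hG1 hG2 hG3 hG4 hX hα hcos
  -- the trace
  have htr : Fintype.card ι * Real.cos α - v ≤ (trace (Wm R m * Q)).re := by
    have e1 : Wm R m * Q = Wm R m - Wm R m * Qd U (fun k => 1 - χ k) := by
      have : Q = 1 - Qd U (fun k => 1 - χ k) := by
        rw [← Qd_one hU2, Qd_sub, hQd]
        congr 1
        funext k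
        ring
      rw [this, mul_sub, Matrix.mul_one]
    have e2 : (trace (Wm R m)).re = Fintype.card ι * Real.cos α := by
      rw [hX, trace_add, trace_smul, trace_smul, trace_one]
      have : trace G = 0 := by
        unfold trace
        exact Finset.sum_eq_zero fun k _ => hG4 k
      rw [this, smul_zero, add_zero, smul_eq_mul, Complex.re_ofReal_mul, Complex.natCast_re]
      ring
    have e3 := tr_proj hU1 hU2 (Wm_con hR m le_rfl) (χ := fun k => 1 - χ k) (fun k => by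
      rw [hχ]; dsimp only; split_ifs <;> norm_num)
    rw [e1, trace_sub, Complex.sub_re, e2]
    linarith
  -- the bound of `v`
  have hr0 : (0 : ℝ) < r := by exact_mod_cast hr
  have hv1 : v ≤ 8 * m / (r * D0) := by
    have g1 : v * D0 ≤ 8 * m / r := by
      have g2 : v * D0 ≤ v * D := mul_le_mul_of_nonneg_left hDge hv0
      have g3 : 0 ≤ low / D := by positivity
      linarith
    rw [le_div_iff₀ (by positivity)]
    rw [le_div_iff₀ hr0] at g1
    linarith
  -- the square root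
  have hsq : √v * √low ≤ 4 * m / r := by
    rw [← Real.sqrt_mul hv0]
    refine Real.sqrt_le_iff.2 ⟨by positivity, ?_⟩
    have g1 : v * low = (v * D) * (low / D) := by field_simp
    have g2 : 0 ≤ v * D := by positivity
    have g3 : 0 ≤ low / D := by positivity
    have g4 : 4 * (m : ℝ) / r = (8 * m / r) / 2 := by ring
    rw [g1, g4]
    nlinarith [sq_nonneg (v * D - low / D)]
  have hlhs : Real.sin α * (Fintype.card ι * Real.cos α - 8 * m / (r * D0) - 2 * δ * m) ≤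
      Real.sin α * ((trace (Wm R m * Q)).re - 2 * δ * m) :=
    mul_le_mul_of_nonneg_left (by linarith) hα
  refine hlhs.trans (hcore.trans ?_)
  have g5 : √(D / δ) ≤ √(2 ^ r * D0 / δ) := by
    apply Real.sqrt_le_sqrt
    gcongr
  gcongr

end

end Pool.Agent.V8H59.RF
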