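import Mathlib

set_option autoImplicit false

/-!
The smooth truncation of complex numbers at a logarithmic scale.
-/

namespace Pool.Agent.V8H59.RF

noncomputable section

/-- The truncation factor: `1` for `x ≤ exp (-b)`, `0` for `x ≥ exp (-b / 2)`. -/
def th (b x : ℝ) : ℝ := max 0 (min 1 (-2 * Real.log x / b - 1))

lemma th_nonneg (b x : ℝ) : 0 ≤ th b x := le_max_left _ _

lemma th_le_one (b x : ℝ) : th b x ≤ 1 := max_le zero_le_one (min_le_left _ _)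

lemma th_one {b x : ℝ} (hb : 0 < b) (hx : 0 < x) (h : x ≤ Real.exp (-b)) : th b x = 1 := by
  have h1 : Real.log x ≤ -b := by
    have := Real.log_le_log hx h
    rwa [Real.log_exp] at this
  unfold th
  have h2 : 1 ≤ -2 * Real.log x / b - 1 := by
    rw [le_sub_iff_add_le, le_div_iff₀ hb]
    linarith
  rw [min_eq_left h2, max_eq_right zero_le_one]

lemma th_zero {b x : ℝ} (hb : 0 < b) (h : Real.exp (-(b / 2)) ≤ x) : th b x = 0 := by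
  have h1 : -(b / 2) ≤ Real.log x := by
    have := Real.log_le_log (Real.exp_pos _) h
    rwa [Real.log_exp] at this
  unfold th
  have h2 : -2 * Real.log x / b - 1 ≤ 0 := by
    rw [sub_nonpos, div_le_one hb]
    linarith
  rw [max_eq_left]
  exact (min_le_right _ _).trans h2

lemma clamp_lip (s t : ℝ) : |max 0 (min 1 s) - max 0 (min 1 t)| ≤ |s - t| := by
  refine (abs_max_sub_max_le_max 0 (min 1 s) 0 (min 1 t)).trans ?_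
  rw [sub_self, abs_zero]
  refine max_le (abs_nonneg _) ?_
  refine (abs_min_sub_min_le_max 1 s 1 t).trans ?_
  rw [sub_self, abs_zero]
  exact max_le (abs_nonneg _) le_rfl

lemma th_lip {b x y : ℝ} (hb : 0 < b) (hx : 0 < x) (hxy : x ≤ y) :
    |th b x - th b y| ≤ 2 / b * (Real.log y - Real.log x) := by
  refine (clamp_lip _ _).trans ?_
  have h1 : -2 * Real.log x / b - 1 - (-2 * Real.log y / b - 1) =
      2 / b * (Real.log y - Real.log x) := by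
    field_simp
    ring
  rw [h1, abs_of_nonneg]
  have := Real.log_le_log hx hxy
  exact mul_nonneg (by positivity) (by linarith)

/-- The truncation of a complex number. -/
def tz (b : ℝ) (z : ℂ) : ℂ := ((th b (‖z‖ ^ 2) : ℝ) : ℂ) * z

lemma tz_small {b : ℝ} {z : ℂ} (hb : 0 < b) (h : ‖z‖ ^ 2 ≤ Real.exp (-b)) : tz b z = z := by
  unfold tz
  by_cases hz : z = 0
  · rw [hz, mul_zero]
  · have h1 : 0 < ‖z‖ ^ 2 := by positivity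
    rw [th_one hb h1 h]
    simp

lemma tz_big {b : ℝ} {z : ℂ} (hb : 0 < b) (h : Real.exp (-(b / 2)) ≤ ‖z‖ ^ 2) : tz b z = 0 := by
  unfold tz
  rw [th_zero hb h]
  simp

lemma norm_tz_le (b : ℝ) (z : ℂ) : ‖tz b z‖ ≤ ‖z‖ := by
  unfold tz
  rw [norm_mul, Complex.norm_real, Real.norm_of_nonneg (th_nonneg _ _)]
  exact mul_le_of_le_one_left (norm_nonneg _) (th_le_one _ _)

/-- Comparison with the factor at a larger modulus. -/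
lemma tz_cmp {b ρ : ℝ} {z : ℂ} (hb : 0 < b) (hz : ‖z‖ ≤ ρ) :
    ‖tz b z - ((th b (ρ ^ 2) : ℝ) : ℂ) * z‖ ≤ 4 / b * ρ := by
  have hρ : 0 ≤ ρ := (norm_nonneg _).trans hz
  by_cases h0 : z = 0
  · unfold tz
    rw [h0]
    simp only [mul_zero, sub_zero, norm_zero]
    positivity
  · have h1 : 0 < ‖z‖ := norm_pos_iff.2 h0
    unfold tz
    rw [← sub_mul, norm_mul, ← Complex.ofReal_sub, Complex.norm_real, Real.norm_eq_abs]
    have h2 : ‖z‖ ^ 2 ≤ ρ ^ 2 := by gcongr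
    have h3 := th_lip hb (by positivity) h2
    have h4 : Real.log (ρ ^ 2) - Real.log (‖z‖ ^ 2) = 2 * Real.log (ρ / ‖z‖) := by
      rw [Real.log_pow, Real.log_pow, Real.log_div (by linarith) h1.ne']
      push_cast
      ring
    have h5 : Real.log (ρ / ‖z‖) ≤ ρ / ‖z‖ - 1 := Real.log_le_sub_one_of_pos (by
      apply div_pos _ h1
      linarith)
    rw [h4] at h3
    calc |th b (‖z‖ ^ 2) - th b (ρ ^ 2)| * ‖z‖ ≤ (2 / b * (2 * Real.log (ρ / ‖z‖))) * ‖z‖ :=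
          mul_le_mul_of_nonneg_right h3 h1.le
      _ ≤ (2 / b * (2 * (ρ / ‖z‖ - 1))) * ‖z‖ := by gcongr
      _ = 4 / b * (ρ - ‖z‖) := by field_simp; ring
      _ ≤ 4 / b * ρ := by
          apply mul_le_mul_of_nonneg_left _ (by positivity)
          linarith

/-- **Key lemma.** -/
lemma tz_key {b : ℝ} (hb : 0 < b) {l1 l2 x y : ℂ} (hl : ‖l1‖ ^ 2 + ‖l2‖ ^ 2 ≤ 1) :
    ‖tz b (l1 * x + l2 * y) - (l1 * tz b x + l2 * tz b y)‖ ≤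
      12 / b * √(‖x‖ ^ 2 + ‖y‖ ^ 2) := by
  set ρ := √(‖x‖ ^ 2 + ‖y‖ ^ 2) with hρ
  have hρ2 : ρ ^ 2 = ‖x‖ ^ 2 + ‖y‖ ^ 2 := Real.sq_sqrt (by positivity)
  have hρ0 : 0 ≤ ρ := Real.sqrt_nonneg _
  have hx : ‖x‖ ≤ ρ := Real.le_sqrt_of_sq_le (by nlinarith [norm_nonneg y])
  have hy : ‖y‖ ≤ ρ := Real.le_sqrt_of_sq_le (by nlinarith [norm_nonneg x])
  have hl1 : ‖l1‖ ≤ 1 := by nlinarith [norm_nonneg l1, norm_nonneg l2]
  have hl2 : ‖l2‖ ≤ 1 := by nlinarith [norm_nonneg l1, norm_nonneg l2]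
  have hx' : ‖l1 * x + l2 * y‖ ≤ ρ := by
    refine Real.le_sqrt_of_sq_le ?_
    have h1 : ‖l1 * x + l2 * y‖ ≤ ‖l1‖ * ‖x‖ + ‖l2‖ * ‖y‖ := by
      refine (norm_add_le _ _).trans ?_
      rw [norm_mul, norm_mul]
    have h2 : (‖l1‖ * ‖x‖ + ‖l2‖ * ‖y‖) ^ 2 ≤ (‖l1‖ ^ 2 + ‖l2‖ ^ 2) * (‖x‖ ^ 2 + ‖y‖ ^ 2) := by
      nlinarith [sq_nonneg (‖l1‖ * ‖y‖ - ‖l2‖ * ‖x‖)]
    have h3 : (‖l1‖ ^ 2 + ‖l2‖ ^ 2) * (‖x‖ ^ 2 + ‖y‖ ^ 2) ≤ 1 * (‖x‖ ^ 2 + ‖y‖ ^ 2) :=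
      mul_le_mul_of_nonneg_right hl (by positivity)
    have h4 : ‖l1 * x + l2 * y‖ ^ 2 ≤ (‖l1‖ * ‖x‖ + ‖l2‖ * ‖y‖) ^ 2 := by gcongr
    linarith
  have c1 := tz_cmp hb hx'
  have c2 := tz_cmp hb hx
  have c3 := tz_cmp hb hy
  set τ : ℂ := ((th b (ρ ^ 2) : ℝ) : ℂ)
  have e : tz b (l1 * x + l2 * y) - (l1 * tz b x + l2 * tz b y) =
      (tz b (l1 * x + l2 * y) - τ * (l1 * x + l2 * y)) - l1 * (tz b x - τ * x) -
        l2 * (tz b y - τ * y) := by ring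
  rw [e]
  have hc : 0 ≤ 4 / b * ρ := by positivity
  calc _ ≤ ‖tz b (l1 * x + l2 * y) - τ * (l1 * x + l2 * y)‖ + ‖l1 * (tz b x - τ * x)‖ +
        ‖l2 * (tz b y - τ * y)‖ := by
        refine (norm_sub_le _ _).trans ?_
        gcongr
        exact norm_sub_le _ _
    _ ≤ 4 / b * ρ + 1 * (4 / b * ρ) + 1 * (4 / b * ρ) := by
        rw [norm_mul, norm_mul]
        gcongr
    _ = 12 / b * ρ := by ring

lemma tz_key0 {b : ℝ} (hb : 0 < b) {l1 l2 x y : ℂ} (hl : ‖l1‖ ^ 2 + ‖l2‖ ^ 2 ≤ 1)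
    (h : ‖x‖ ^ 2 + ‖y‖ ^ 2 ≤ Real.exp (-b)) :
    tz b (l1 * x + l2 * y) - (l1 * tz b x + l2 * tz b y) = 0 := by
  have h1 : ‖l1 * x + l2 * y‖ ≤ ‖l1‖ * ‖x‖ + ‖l2‖ * ‖y‖ := by
    refine (norm_add_le _ _).trans ?_
    rw [norm_mul, norm_mul]
  have h2 : (‖l1‖ * ‖x‖ + ‖l2‖ * ‖y‖) ^ 2 ≤ (‖l1‖ ^ 2 + ‖l2‖ ^ 2) * (‖x‖ ^ 2 + ‖y‖ ^ 2) := by
    nlinarith [sq_nonneg (‖l1‖ * ‖y‖ - ‖l2‖ * ‖x‖)]
  have h3 : (‖l1‖ ^ 2 + ‖l2‖ ^ 2) * (‖x‖ ^ 2 + ‖y‖ ^ 2) ≤ 1 * (‖x‖ ^ 2 + ‖y‖ ^ 2) :=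
    mul_le_mul_of_nonneg_right hl (by positivity)
  have h4 : ‖l1 * x + l2 * y‖ ^ 2 ≤ (‖l1‖ * ‖x‖ + ‖l2‖ * ‖y‖) ^ 2 := by gcongr
  rw [tz_small hb (by linarith), tz_small hb (by nlinarith [norm_nonneg y]),
    tz_small hb (by nlinarith [norm_nonneg x]), sub_self]

end

end Pool.Agent.V8H59.RF
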